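import Pool.Agent.NH30.KS.Stm

/-!
# Task KS-3: there are few bad integral vectors
-/

set_option autoImplicit false

namespace Pool.Agent.NH30.KS

open Finset

open Classical in
/-- the `D`-smooth numbers up to `H` -/
noncomputable def Sm (D H : ℕ) : Finset ℕ := (Icc 1 H).filter (fun u => ∀ p : ℕ, p.Prime → p ∣ u → p ≤ D)

lemma mem_Sm {D H u : ℕ} : u ∈ Sm D H ↔ (1 ≤ u ∧ u ≤ H) ∧ ∀ p : ℕ, p.Prime → p ∣ u → p ≤ D := by
  unfold Sm
  simp only [mem_filter, mem_Icc]

lemma card_Sm (D H : ℕ) : (Sm D H).card ≤ (Nat.log 2 H + 1) ^ (D + 1) := by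
  have hmaps : ∀ u ∈ Sm D H, (fun q : Fin (D + 1) => u.factorization q) ∈
      Fintype.piFinset (fun _ : Fin (D + 1) => range (Nat.log 2 H + 1)) := by
    intro u hu
    rw [mem_Sm] at hu
    rw [Fintype.mem_piFinset]
    intro q
    rw [mem_range]
    have hu0 : u ≠ 0 := by omega
    by_cases hq : (q : ℕ).Prime
    · have h1 : (q : ℕ) ^ u.factorization q ≤ H := (Nat.ordProj_le _ hu0).trans hu.1.2
      have h2 : 2 ^ u.factorization q ≤ H := (Nat.pow_le_pow_left hq.two_le _).trans h1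
      have h3 := Nat.le_log_of_pow_le (by norm_num) h2
      omega
    · rw [Nat.factorization_eq_zero_of_not_prime _ hq]
      omega
  have hinj : Set.InjOn (fun u : ℕ => (fun q : Fin (D + 1) => u.factorization q)) (Sm D H) := by
    intro u hu v hv h
    rw [mem_coe, mem_Sm] at hu hv
    have hu0 : u ≠ 0 := by omega
    have hv0 : v ≠ 0 := by omega
    refine Nat.eq_of_factorization_eq hu0 hv0 fun p => ?_
    by_cases hp : p.Prime
    · by_cases hpD : p ≤ D
      · have := congrFun h ⟨p, by omega⟩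
        exact this
      · rw [Nat.factorization_eq_zero_of_not_dvd fun hd => hpD (hu.2 p hp hd),
          Nat.factorization_eq_zero_of_not_dvd fun hd => hpD (hv.2 p hp hd)]
    · rw [Nat.factorization_eq_zero_of_not_prime _ hp, Nat.factorization_eq_zero_of_not_prime _ hp]
  have := card_le_card_of_injOn _ hmaps hinj
  rw [Fintype.card_piFinset] at this
  simpa using this

/-- the pairs `(s, b)` with `s |b| ≤ H` -/
noncomputable def Pr (H : ℕ) : Finset (ℕ × ℤ) :=
  (Icc 1 H).biUnion (fun s => ({s} : Finset ℕ) ×ˢ Icc (-((H / s : ℕ) : ℤ)) ((H / s : ℕ) : ℤ))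

lemma mem_Pr (H s : ℕ) (b : ℤ) (hs : 1 ≤ s) (hsH : s ≤ H) (hb : |(s : ℤ) * b| ≤ H) : (s, b) ∈ Pr H := by
  rw [Pr, mem_biUnion]
  refine ⟨s, mem_Icc.2 ⟨hs, hsH⟩, ?_⟩
  rw [mem_product, mem_singleton, mem_Icc]
  refine ⟨rfl, ?_⟩
  have h1 : b.natAbs ≤ H / s := by
    rw [Nat.le_div_iff_mul_le hs]
    rw [abs_mul, Nat.abs_cast, Int.abs_eq_natAbs] at hb
    have : s * b.natAbs ≤ H := by exact_mod_cast hb
    rw [mul_comm]
    exact this
  have h2 : |b| ≤ ((H / s : ℕ) : ℤ) := by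
    rw [Int.abs_eq_natAbs]
    exact_mod_cast h1
  exact abs_le.1 h2

lemma card_Pr (H : ℕ) (hH : 2 ≤ H) : ((Pr H).card : ℝ) ≤ 3 * H * (1 + Real.log H) := by
  have h1 : (Pr H).card ≤ ∑ s ∈ Icc 1 H, (2 * (H / s) + 1) := by
    refine card_biUnion_le.trans (sum_le_sum fun s _ => ?_)
    rw [card_product, card_singleton, one_mul, Int.card_Icc]
    omega
  have hH0 : (0 : ℝ) ≤ H := Nat.cast_nonneg _
  calc ((Pr H).card : ℝ) ≤ ((∑ s ∈ Icc 1 H, (2 * (H / s) + 1) : ℕ) : ℝ) := by exact_mod_cast h1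
    _ = ∑ s ∈ Icc 1 H, (2 * ((H / s : ℕ) : ℝ) + 1) := by push_cast; rfl
    _ ≤ ∑ s ∈ Icc 1 H, 3 * H * (1 / (s : ℝ)) := by
        refine sum_le_sum fun s hs => ?_
        rw [mem_Icc] at hs
        have hs0 : (0 : ℝ) < s := by exact_mod_cast hs.1
        have h2 : ((H / s : ℕ) : ℝ) ≤ H / s := Nat.cast_div_le
        have h3 : (1 : ℝ) ≤ H / s := by
          rw [le_div_iff₀ hs0, one_mul]
          exact_mod_cast hs.2
        calc 2 * ((H / s : ℕ) : ℝ) + 1 ≤ 2 * (H / s) + H / s := by linarith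
          _ = _ := by ring
    _ = 3 * H * ∑ s ∈ Icc 1 H, (1 / (s : ℝ)) := by rw [mul_sum]
    _ ≤ 3 * H * (1 + Real.log H) := by
        gcongr
        have h := harmonic_le_one_add_log H
        rw [harmonic_eq_sum_Icc] at h
        push_cast at h
        have e : ∑ n ∈ Icc 1 H, (1 / (n:ℝ)) = ∑ n ∈ Icc 1 H, ((n:ℝ))⁻¹ := by simp
        rw [e]
        exact h

/-- the decomposition of a bad vector -/
lemma bad_decomp {n : ℕ} (D H : ℕ) (t : ℤ) (c : Fin n → ℤ) (ht : t ≠ 0) (htH : |t| ≤ H) (hcH : ∀ i, |c i| ≤ H)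
    (hbad : Bad D t c) : ∃ u ∈ Sm D H, ∃ w ∈ Fintype.piFinset (fun _ : Fin n => Pr H),
      (t.natAbs = u * ∏ i, (w i).1) ∧ ∀ i, c i = (w i).1 * (w i).2 := by
  classical
  set T : ℕ := t.natAbs with hT
  have hT0 : T ≠ 0 := by rwa [hT, Int.natAbs_ne_zero]
  have hTH : T ≤ H := by
    rw [Int.abs_eq_natAbs] at htH
    exact_mod_cast htH
  -- choice of the index
  have hch : ∀ p : ℕ, ∃ i : Option (Fin n), (p ∈ T.primeFactors → D < p → ∃ j, i = some j ∧ ((p ^ T.factorization p : ℕ) : ℤ) ∣ c j) ∧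
      (p ≤ D → i = none) := by
    intro p
    by_cases hp : p ∈ T.primeFactors ∧ D < p
    · have hpp := Nat.prime_of_mem_primeFactors hp.1
      have hpt : (p : ℤ) ∣ t := by
        rw [Int.natCast_dvd]
        exact Nat.dvd_of_mem_primeFactors hp.1
      obtain ⟨j, hj⟩ := hbad p hpp hp.2 hpt
      refine ⟨some j, fun _ _ => ⟨j, rfl, ?_⟩, fun h => absurd h (by omega)⟩
      push_cast
      apply hj
      have h1 : p ^ T.factorization p ∣ T := Nat.ordProj_dvd _ _
      have h2 : ((p ^ T.factorization p : ℕ) : ℤ) ∣ t := by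
        rw [Int.natCast_dvd]
        exact h1
      push_cast at h2
      exact h2
    · refine ⟨none, fun h1 h2 => absurd ⟨h1, h2⟩ hp, fun _ => rfl⟩
  choose idx hidx1 hidx2 using hch
  set s : Fin n → ℕ := fun i => ∏ p ∈ T.primeFactors.filter (fun p => idx p = some i), p ^ T.factorization p with hs
  set u : ℕ := ∏ p ∈ T.primeFactors.filter (fun p => idx p = none), p ^ T.factorization p with hu
  have hprod : T = u * ∏ i, s i := by
    have h1 : T = ∏ p ∈ T.primeFactors, p ^ T.factorization p := by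
      conv_lhs => rw [← Nat.prod_factorization_pow_eq_self hT0]
      rw [Finsupp.prod, Nat.support_factorization]
    have h2 : ∏ p ∈ T.primeFactors, p ^ T.factorization p =
        ∏ o : Option (Fin n), ∏ p ∈ T.primeFactors.filter (fun p => idx p = o), p ^ T.factorization p :=
      (prod_fiberwise T.primeFactors idx _).symm
    rw [Fintype.prod_option] at h2
    rw [← h2]
    exact h1
  have hudvd : u ∣ T := ⟨_, hprod⟩
  have hsdvd : ∀ i, s i ∣ T := fun i => by
    rw [hprod]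
    exact (dvd_prod_of_mem s (mem_univ i)).mul_left _
  have hupos : 0 < u := Nat.pos_of_dvd_of_pos hudvd (Nat.pos_of_ne_zero hT0)
  have hspos : ∀ i, 0 < s i := fun i => Nat.pos_of_dvd_of_pos (hsdvd i) (Nat.pos_of_ne_zero hT0)
  have huH : u ≤ H := (Nat.le_of_dvd (Nat.pos_of_ne_zero hT0) hudvd).trans hTH
  have hsH : ∀ i, s i ≤ H := fun i => (Nat.le_of_dvd (Nat.pos_of_ne_zero hT0) (hsdvd i)).trans hTH
  have husm : ∀ p : ℕ, p.Prime → p ∣ u → p ≤ D := by
    intro p hp hpu
    rw [hu, hp.prime.dvd_finsetProd_iff] at hpu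
    obtain ⟨q, hq, hpq⟩ := hpu
    rw [mem_filter] at hq
    have hqp := Nat.prime_of_mem_primeFactors hq.1
    have : p = q := (Nat.prime_dvd_prime_iff_eq hp hqp).1 (hp.dvd_of_dvd_pow hpq)
    subst this
    by_contra hlt
    push Not at hlt
    obtain ⟨j, hj, _⟩ := hidx1 p hq.1 hlt
    rw [hq.2] at hj
    exact absurd hj (by simp)
  have hscd : ∀ i, ((s i : ℕ) : ℤ) ∣ c i := by
    intro i
    rw [hs]
    simp only
    rw [Nat.cast_prod]
    apply Finset.prod_dvd_of_coprime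
    · intro p hp q hq hpq
      rw [mem_coe, mem_filter] at hp hq
      have hpp := Nat.prime_of_mem_primeFactors hp.1
      have hqp := Nat.prime_of_mem_primeFactors hq.1
      show IsCoprime _ _
      rw [Nat.isCoprime_iff_coprime]
      exact Nat.Coprime.pow _ _ ((Nat.coprime_primes hpp hqp).2 hpq)
    · intro p hp
      rw [mem_filter] at hp
      have hDp : D < p := by
        by_contra h
        push Not at h
        have := hidx2 p h
        rw [hp.2] at this
        exact absurd this (by simp)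
      obtain ⟨j, hj, hd⟩ := hidx1 p hp.1 hDp
      rw [hp.2] at hj
      have : i = j := by simpa using hj
      subst this
      exact hd
  choose b hb using hscd
  refine ⟨u, ?_, fun i => (s i, b i), ?_, hprod, fun i => hb i⟩
  · rw [mem_Sm]
    exact ⟨⟨hupos, huH⟩, husm⟩
  · rw [Fintype.mem_piFinset]
    intro i
    exact mem_Pr H (s i) (b i) (hspos i) (hsH i) (by rw [← hb i]; exact hcH i)

/-- Task KS-3. There are few bad integral vectors. -/
theorem s_count : S_COUNT := by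
  classical
  intro n D
  refine ⟨3 ^ n * 2 ^ (n + D + 1) + 2 * 4 ^ (D + 1) * 9 ^ n, n + D + 1, fun H hH => ?_⟩
  set Z0 : Finset (ℤ × (Fin n → ℤ)) :=
    ({0} : Finset ℤ) ×ˢ Fintype.piFinset (fun _ : Fin n => Icc (-(H : ℤ)) H) with hZ0
  set W : Finset (ℤ × ℕ × (Fin n → ℕ × ℤ)) :=
    ({1, -1} : Finset ℤ) ×ˢ (Sm D H ×ˢ Fintype.piFinset (fun _ : Fin n => Pr H)) with hW
  set f : ℤ × ℕ × (Fin n → ℕ × ℤ) → ℤ × (Fin n → ℤ) :=
    fun v => (v.1 * (v.2.1 * ∏ i, ((v.2.2 i).1 : ℤ)), fun i => (v.2.2 i).1 * (v.2.2 i).2) with hf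
  have hsub : {v : ℤ × (Fin n → ℤ) | |v.1| ≤ (H : ℤ) ∧ (∀ i, |v.2 i| ≤ (H : ℤ)) ∧
      (v.1 = 0 ∨ Bad D v.1 v.2)} ⊆ ((Z0 ∪ W.image f : Finset _) : Set (ℤ × (Fin n → ℤ))) := by
    rintro ⟨t, c⟩ ⟨h1, h2, h3⟩
    simp only at h1 h2 h3
    rw [mem_coe, mem_union]
    by_cases ht : t = 0
    · left
      rw [hZ0, mem_product, mem_singleton, Fintype.mem_piFinset]
      exact ⟨ht, fun i => mem_Icc.2 (abs_le.1 (h2 i))⟩
    · right
      have hbad : Bad D t c := h3.resolve_left ht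
      obtain ⟨u, hu, w, hw, e1, e2⟩ := bad_decomp D H t c ht h1 h2 hbad
      rw [mem_image]
      refine ⟨(Int.sign t, u, w), ?_, ?_⟩
      · rw [hW, mem_product, mem_product]
        refine ⟨?_, hu, hw⟩
        rcases lt_or_gt_of_ne ht with h | h
        · simp [Int.sign_eq_neg_one_of_neg h]
        · simp [Int.sign_eq_one_of_pos h]
      · rw [hf]
        simp only
        rw [Prod.mk.injEq]
        constructor
        · have h4 : (t.natAbs : ℤ) = u * ∏ i, ((w i).1 : ℤ) := by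
            rw [e1]
            push_cast
            rfl
          rw [← h4]
          exact Int.sign_mul_natAbs t
        · funext i
          exact (e2 i).symm
  have hcard : ({v : ℤ × (Fin n → ℤ) | |v.1| ≤ (H : ℤ) ∧ (∀ i, |v.2 i| ≤ (H : ℤ)) ∧
      (v.1 = 0 ∨ Bad D v.1 v.2)}.ncard) ≤ (2 * H + 1) ^ n + 2 * ((Sm D H).card * (Pr H).card ^ n) := by
    refine (Set.ncard_le_ncard hsub (finite_toSet _)).trans ?_
    rw [Set.ncard_coe_finset]
    refine (card_union_le _ _).trans ?_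
    refine Nat.add_le_add ?_ ?_
    · rw [hZ0, card_product, card_singleton, one_mul, Fintype.card_piFinset]
      simp only [Int.card_Icc, prod_const, card_univ, Fintype.card_fin]
      apply le_of_eq
      congr 1
      omega
    · refine card_image_le.trans ?_
      rw [hW, card_product, card_product, Fintype.card_piFinset]
      simp only [prod_const, card_univ, Fintype.card_fin]
      refine Nat.mul_le_mul_right _ ?_
      exact card_le_two
  have hH0 : (0 : ℝ) < H := by exact_mod_cast (by omega : 0 < H)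
  have hH2 : (2 : ℝ) ≤ H := by exact_mod_cast hH
  have hlog2 : (1 : ℝ) / 2 ≤ Real.log 2 := by
    have := Real.log_two_gt_d9
    linarith
  have hlog : Real.log 2 ≤ Real.log H := Real.log_le_log (by norm_num) hH2
  set l : ℝ := Real.log H with hl
  have hl0 : 0 < l := by linarith
  have h2l : 1 ≤ 2 * l := by linarith
  have hSm : ((Sm D H).card : ℝ) ≤ (4 * l) ^ (D + 1) := by
    have h1 : ((Sm D H).card : ℝ) ≤ ((Nat.log 2 H : ℝ) + 1) ^ (D + 1) := by exact_mod_cast card_Sm D H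
    refine h1.trans ?_
    gcongr
    have h2 : (Nat.log 2 H : ℝ) * Real.log 2 ≤ l := by
      have h3 : (2 : ℕ) ^ Nat.log 2 H ≤ H := Nat.pow_log_le_self 2 (by omega)
      have h4 : ((2 : ℝ)) ^ Nat.log 2 H ≤ H := by exact_mod_cast h3
      have h5 := Real.log_le_log (by positivity) h4
      rwa [Real.log_pow] at h5
    have h3 : (0 : ℝ) ≤ Nat.log 2 H := Nat.cast_nonneg _
    nlinarith
  have hPr : ((Pr H).card : ℝ) ≤ 9 * l * H := by
    refine (card_Pr H hH).trans ?_
    rw [← hl]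
    nlinarith
  calc ({v : ℤ × (Fin n → ℤ) | |v.1| ≤ (H : ℤ) ∧ (∀ i, |v.2 i| ≤ (H : ℤ)) ∧
      (v.1 = 0 ∨ Bad D v.1 v.2)}.ncard : ℝ) ≤ (2 * H + 1 : ℝ) ^ n + 2 * ((Sm D H).card * (Pr H).card ^ n) := by
        exact_mod_cast hcard
    _ ≤ (3 * H : ℝ) ^ n * (2 * l) ^ (n + D + 1) + 2 * ((4 * l) ^ (D + 1) * (9 * l * H) ^ n) := by
        have e1 : (2 * H + 1 : ℝ) ^ n ≤ (3 * H : ℝ) ^ n := by
          gcongr
          linarith
        have e2 : (1 : ℝ) ≤ (2 * l) ^ (n + D + 1) := one_le_pow₀ h2l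
        have e3 : (3 * H : ℝ) ^ n ≤ (3 * H : ℝ) ^ n * (2 * l) ^ (n + D + 1) := by
          have : (0 : ℝ) ≤ (3 * H : ℝ) ^ n := by positivity
          nlinarith
        have e4 : ((Sm D H).card : ℝ) * (Pr H).card ^ n ≤ (4 * l) ^ (D + 1) * (9 * l * H) ^ n := by gcongr
        linarith
    _ = _ := by
        push_cast
        rw [mul_pow, mul_pow, mul_pow, mul_pow, mul_pow]
        ring

end Pool.Agent.NH30.KS
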