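import Pool.Agent.NH30.KS.Stm

/-!
# Zilber-Pink at one place: embeddings with integral values at independent numbers
-/

set_option autoImplicit false

namespace Pool.Agent.NH30.KS

open Cardinal

namespace EmbAux

variable (p : ℕ) [Fact p.Prime]

/-- the closed unit ball -/
def ball : Set ℂ_[p] := {z | ‖z‖ ≤ 1}

theorem card_ge : 𝔠 ≤ #ℂ_[p] := by
  have h1 : 𝔠 ≤ #ℚ_[p] := continuum_le_cardinal_of_nontriviallyNormedField ℚ_[p]
  have h2 : #ℚ_[p] ≤ #ℂ_[p] := Cardinal.mk_le_of_injective (algebraMap ℚ_[p] ℂ_[p]).injective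
  exact h1.trans h2

theorem alg_ball (K : Type) [Field K] [Algebra K ℂ_[p]] :
    Algebra.IsAlgebraic (Algebra.adjoin K (ball p)) ℂ_[p] := by
  constructor
  intro z
  by_cases hz : ‖z‖ ≤ 1
  · exact isAlgebraic_algebraMap (⟨z, Algebra.subset_adjoin hz⟩ : Algebra.adjoin K (ball p))
  · have hz1 : ‖z⁻¹‖ ≤ 1 := by
      rw [norm_inv]
      exact inv_le_one_of_one_le₀ (not_le.1 hz).le
    have hz0 : z ≠ 0 := by
      rintro rfl
      simp at hz
    have h1 : IsAlgebraic (Algebra.adjoin K (ball p)) (z⁻¹) :=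
      isAlgebraic_algebraMap (⟨z⁻¹, Algebra.subset_adjoin hz1⟩ : Algebra.adjoin K (ball p))
    have := h1.inv
    rwa [inv_inv] at this

theorem exists_basis (K : Type) [Field K] [Countable K] [Algebra K ℂ_[p]] :
    ∃ T : Set ℂ_[p], T ⊆ ball p ∧ IsTranscendenceBasis K ((↑) : T → ℂ_[p]) ∧ 𝔠 ≤ #T := by
  haveI := alg_ball p K
  obtain ⟨T, hT, hb⟩ := exists_isTranscendenceBasis_subset (R := K) (ball p)
  refine ⟨T, hT, hb, ?_⟩
  have h1 := IsAlgClosed.cardinal_eq_cardinal_transcendence_basis_of_aleph0_lt (R := K) _ hb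
    (Cardinal.mk_le_aleph0) (Cardinal.aleph0_lt_continuum.trans_le (card_ge p))
  simp only [Cardinal.lift_id] at h1
  rw [← h1]
  exact card_ge p

end EmbAux

open EmbAux

theorem s_emb : S_EMB := by
  intro p _ K _ φ τ x hx
  letI : Algebra K ℂ_[p] := φ.toAlgebra
  obtain ⟨T, hT, hb, hcard⟩ := exists_basis p K
  have hx' : AlgebraicIndepOn K id (Set.range x) := AlgebraicIndependent.coe_range hx
  obtain ⟨s, hs, hsb⟩ := exists_isTranscendenceBasis_superset hx'
  have hle : #s ≤ #T := by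
    refine le_trans ?_ hcard
    rw [← Cardinal.mk_complex]
    exact Cardinal.mk_set_le s
  obtain ⟨g⟩ := Cardinal.le_def _ _ |>.1 hle
  -- the algebra homomorphism on the polynomial ring
  have hg : AlgebraicIndependent K (fun i : s => ((g i : T) : ℂ_[p])) := hb.1.comp g g.injective
  let A0 := Algebra.adjoin K (Set.range ((↑) : s → ℂ))
  let e : MvPolynomial s K ≃ₐ[K] A0 := hsb.1.aevalEquiv
  let f : A0 →ₐ[K] ℂ_[p] := (MvPolynomial.aeval (fun i : s => ((g i : T) : ℂ_[p]))).comp (e.symm : A0 →ₐ[K] MvPolynomial s K)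
  have hfinj : Function.Injective f := by
    have h1 : Function.Injective (MvPolynomial.aeval (R := K) (fun i : s => ((g i : T) : ℂ_[p]))) := hg
    exact h1.comp e.symm.injective
  letI : Algebra A0 ℂ_[p] := (f : A0 →+* ℂ_[p]).toAlgebra
  haveI : FaithfulSMul A0 ℂ_[p] := (faithfulSMul_iff_algebraMap_injective _ _).2 hfinj
  haveI : Algebra.IsAlgebraic A0 ℂ := hsb.isAlgebraic
  haveI : Module.IsTorsionFree A0 ℂ_[p] := inferInstance
  let Φ : ℂ →ₐ[A0] ℂ_[p] := IsAlgClosed.lift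
  refine ⟨(Φ : ℂ →+* ℂ_[p]), fun z => ?_, fun j => ?_⟩
  · have h1 : Φ (algebraMap A0 ℂ (algebraMap K A0 z)) = algebraMap A0 ℂ_[p] (algebraMap K A0 z) := Φ.commutes _
    have h2 : algebraMap A0 ℂ_[p] (algebraMap K A0 z) = φ z := f.commutes z
    rw [h2] at h1
    exact h1
  · have hj : x j ∈ s := hs ⟨j, rfl⟩
    let a : A0 := e (MvPolynomial.X ⟨x j, hj⟩)
    have ha : (algebraMap A0 ℂ a) = x j := by
      have := hsb.1.algebraMap_aevalEquiv (MvPolynomial.X ⟨x j, hj⟩)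
      rw [MvPolynomial.aeval_X] at this
      exact this
    have h1 : Φ (algebraMap A0 ℂ a) = algebraMap A0 ℂ_[p] a := Φ.commutes _
    have h2 : algebraMap A0 ℂ_[p] a = ((g ⟨x j, hj⟩ : T) : ℂ_[p]) := by
      change (MvPolynomial.aeval (fun i : s => ((g i : T) : ℂ_[p]))) (e.symm (e (MvPolynomial.X ⟨x j, hj⟩))) = _
      rw [AlgEquiv.symm_apply_apply, MvPolynomial.aeval_X]
    change ‖Φ (x j)‖ ≤ 1
    rw [← ha, h1, h2]
    exact hT (g ⟨x j, hj⟩).2

end Pool.Agent.NH30.KS
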