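import Pool.Agent.NH30.KS.Rat

/-!
# Zilber-Pink at one place (helper30): the theorem on translates
-/

set_option autoImplicit false

open Function UpperHalfPlane H294ZP MvPolynomial
open Pool.Agent.W282.ZP
open Pool.Agent.NH30.KT (Rel)

namespace Pool.Agent.NH30.KS

theorem exists_rho {n : ℕ} {B : ℝ} (hB : 1 ≤ B) (f : Fin n → ℝ) (hf : ∀ i, B < f i) :
    ∃ ρ : ℝ, ρ < 1 ∧ ∀ i, B ≤ ρ * f i := by
  rcases Nat.eq_zero_or_pos n with rfl | hn
  · exact ⟨0, one_pos, fun i => i.elim0⟩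
  · have : Nonempty (Fin n) := ⟨⟨0, hn⟩⟩
    obtain ⟨i0, hi0⟩ := Finite.exists_min f
    have h0 : 0 < f i0 := by
      have := hf i0
      linarith
    refine ⟨B / f i0, (div_lt_one h0).2 (hf i0), fun i => ?_⟩
    rw [div_mul_eq_mul_div, le_div_iff₀ h0]
    exact mul_le_mul_of_nonneg_left (hi0 i) (by linarith)

/-- almost all places are good -/
theorem good_places {n m : ℕ} (K : Subfield ℂ) (hK : ∀ z ∈ K, IsAlgebraic ℚ z)
    (G : ∀ J : Finset (Fin n), MvPolynomial J K) (d : ∀ J : Finset (Fin n), J →₀ ℕ)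
    (htop : ∀ J : Finset (Fin n), J.card = m + 1 → (G J).coeff (d J) ≠ 0)
    (Γ : Finset ℂ) (hΓ : ∀ γ ∈ Γ, γ ∈ K) :
    ∃ D : ℕ, ∀ p : ℕ, ∀ _ : Fact p.Prime, D < p → ∀ φ : K →+* ℂ_[p], CoefBound m G d φ 1 ∧
      (Algebra.adjoin ℤ (Γ : Set ℂ)).toSubring ≤ intRing K φ := by
  classical
  have := countable_of_algebraic K hK
  let W : Set K := (⋃ J : Finset (Fin n), (fun u => (G J).coeff u) '' ((G J).support : Set (J →₀ ℕ))) ∪
    ((⋃ J : Finset (Fin n), {((G J).coeff (d J))⁻¹}) ∪ (Subtype.val ⁻¹' (Γ : Set ℂ) : Set K))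
  have hWf : W.Finite := by
    refine Set.Finite.union (Set.finite_iUnion fun _ => (Finset.finite_toSet _).image _)
      (Set.Finite.union (Set.finite_iUnion fun _ => Set.finite_singleton _) ?_)
    exact Set.Finite.preimage (Subtype.val_injective.injOn) Γ.finite_toSet
  have hD : ∀ z : K, ∃ D : ℕ, ∀ (p : ℕ) [Fact p.Prime], D < p → ∀ φ : K →+* ℂ_[p], ‖φ z‖ ≤ 1 :=
    fun z => integral_almost K (hK z z.2)
  choose D hD using hD
  refine ⟨2 + ∑ z ∈ hWf.toFinset, D z, fun p hpf hpD φ => ?_⟩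
  have hW : ∀ z ∈ W, ‖φ z‖ ≤ 1 := by
    intro z hz
    refine hD z p ?_ φ
    have h1 : D z ≤ ∑ z ∈ hWf.toFinset, D z :=
      Finset.single_le_sum (f := D) (fun _ _ => Nat.zero_le _) (hWf.mem_toFinset.2 hz)
    omega
  refine ⟨⟨le_rfl, fun J hJ u => ?_⟩, ?_⟩
  · have h1 : 1 ≤ ‖φ ((G J).coeff (d J))‖ := by
      have h2 : ‖φ ((G J).coeff (d J))⁻¹‖ ≤ 1 :=
        hW _ (Or.inr (Or.inl (Set.mem_iUnion.2 ⟨J, rfl⟩)))
      rw [map_inv₀, norm_inv] at h2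
      have h3 : 0 < ‖φ ((G J).coeff (d J))‖ := norm_pos_iff.2 ((map_ne_zero φ).2 (htop J hJ))
      exact (inv_le_one₀ h3).1 h2
    rw [one_mul]
    by_cases hu : (G J).coeff u = 0
    · rw [hu, map_zero, norm_zero]
      exact zero_le_one.trans h1
    · exact (hW _ (Or.inl (Set.mem_iUnion.2 ⟨J, u, mem_support_iff.2 hu, rfl⟩))).trans h1
  · intro z hz
    have hz' : z ∈ Algebra.adjoin ℤ (Γ : Set ℂ) := hz
    induction hz' using Algebra.adjoin_induction with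
    | mem t ht =>
      have ht' : t ∈ K := hΓ t ht
      exact ⟨ht', hW ⟨t, ht'⟩ (Or.inr (Or.inr ht))⟩
    | algebraMap t => exact intCast_mem _ t
    | add s t _ _ hs ht => exact Subring.add_mem _ (hs ‹_›) (ht ‹_›)
    | mul s t _ _ hs ht => exact Subring.mul_mem _ (hs ‹_›) (ht ‹_›)

/-- translates by vectors which are large at a place -/
theorem place_thm {p : ℕ} [hpf : Fact p.Prime] {n m : ℕ} (K : Subfield ℂ) [Countable K]
    (G : ∀ J : Finset (Fin n), MvPolynomial J K) (d : ∀ J : Finset (Fin n), J →₀ ℕ)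
    (hd : ∀ J : Finset (Fin n), J.card = m + 1 → ∀ u ∈ (G J).support, ∀ j, u j ≤ d J j)
    (htop : ∀ J : Finset (Fin n), J.card = m + 1 → (G J).coeff (d J) ≠ 0)
    (Y : Set (Fin n → ℂ))
    (hY : ∀ y ∈ Y, ∀ J : Finset (Fin n), J.card = m + 1 → aeval (fun j : J => y j) (G J) = 0)
    (φ : K →+* ℂ_[p]) {B : ℝ} (hB : CoefBound m G d φ B) {ρ : ℝ} (hρ : ρ < 1) (r : Fin n → K)
    (hr : ∀ i, B ≤ ρ * ‖φ (r i)‖) :
    (∀ i j, (levels p ρ (φ (r i)) (φ (r j))).Finite ∧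
      (ρ < 1 / 2 → (levels p ρ (φ (r i)) (φ (r j))).Subsingleton)) ∧
    ZPin K (intRing K φ) m (shift (fun i => (r i : ℂ)) Y)
      (fun i j => levels p ρ (φ (r i)) (φ (r j))) := by
  have hone : ∀ i, 1 < ‖φ (r i)‖ := by
    intro i
    have h1 := hB.1.trans (hr i)
    have hρ0 : 0 < ρ := by
      by_contra hcon
      push Not at hcon
      have : ρ * ‖φ (r i)‖ ≤ 0 := mul_nonpos_of_nonpos_of_nonneg hcon (norm_nonneg _)
      linarith
    nlinarith [norm_nonneg (φ (r i))]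
  exact ⟨fun i j => ⟨s_fin p ρ _ _ hρ (hone i) (hone j), fun h => levels_unique h (hone i) (hone j)⟩,
    trans_thm K G d hd htop Y hY φ hB hρ r hr⟩

/-- **The theorem on translates.** -/
theorem main3 (K : Subfield ℂ) (hK : ∀ z ∈ K, IsAlgebraic ℚ z) (n m : ℕ)
    (G : ∀ J : Finset (Fin n), MvPolynomial J K) (d : ∀ J : Finset (Fin n), J →₀ ℕ)
    (hd : ∀ J : Finset (Fin n), J.card = m + 1 → ∀ u ∈ (G J).support, ∀ j, u j ≤ d J j)
    (htop : ∀ J : Finset (Fin n), J.card = m + 1 → (G J).coeff (d J) ≠ 0)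
    (Y : Set (Fin n → ℂ))
    (hY : ∀ y ∈ Y, ∀ J : Finset (Fin n), J.card = m + 1 → aeval (fun j : J => y j) (G J) = 0)
    (Γ : Finset ℂ) (hΓ : ∀ γ ∈ Γ, γ ∈ K) :
    ∃ D : ℕ,
      (∀ p : ℕ, ∀ _ : Fact p.Prime, ∀ φ : K →+* ℂ_[p], ∃ B : ℝ, 1 ≤ B ∧
        (D < p → B = 1 ∧ (Algebra.adjoin ℤ (Γ : Set ℂ)).toSubring ≤ intRing K φ) ∧
        ∀ (ρ : ℝ) (r : Fin n → K), ρ < 1 → (∀ i, B ≤ ρ * ‖φ (r i)‖) →
          (∀ i j, (levels p ρ (φ (r i)) (φ (r j))).Finite ∧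
            (ρ < 1 / 2 → (levels p ρ (φ (r i)) (φ (r j))).Subsingleton)) ∧
          ZPin K (intRing K φ) m (shift (fun i => (r i : ℂ)) Y)
            (fun i j => levels p ρ (φ (r i)) (φ (r j)))) ∧
      (∀ p : ℕ, p.Prime → D < p → ∀ r : Fin n → ℚ, (∀ i, p ∣ (r i).den) →
        ∃ L : Fin n → Fin n → ℕ, ZPin K (Algebra.adjoin ℤ (Γ : Set ℂ)).toSubring m
          (shift (fun i => (r i : ℂ)) Y) (fun i j => {L i j})) ∧
      ∃ C a : ℕ, ∀ H : ℕ, 2 ≤ H →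
        ({v : ℤ × (Fin n → ℤ) | |v.1| ≤ (H : ℤ) ∧ (∀ i, |v.2 i| ≤ (H : ℤ)) ∧ (v.1 = 0 ∨
          ¬ ∃ L : Fin n → Fin n → ℕ, ZPin K (Algebra.adjoin ℤ (Γ : Set ℂ)).toSubring m
            (shift (fun i => (v.2 i : ℂ) / (v.1 : ℂ)) Y) (fun i j => {L i j}))}.ncard : ℝ) ≤
          C * (H : ℝ) ^ n * Real.log H ^ a := by
  have hcount := countable_of_algebraic K hK
  obtain ⟨D1, hD1⟩ := good_places (m := m) K hK G d htop Γ hΓ
  obtain ⟨D2, hD2⟩ := rat_thm K hK G d hd htop Y hY Γ hΓ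
  refine ⟨max D1 D2, fun p hpf φ => ?_, fun p hpp hp r hr => ?_,
    count_thm K hK G d hd htop Y hY Γ hΓ⟩
  · by_cases hp : max D1 D2 < p
    · obtain ⟨hB, hO⟩ := hD1 p hpf ((le_max_left _ _).trans_lt hp) φ
      exact ⟨1, le_rfl, fun _ => ⟨rfl, hO⟩, fun ρ r hρ hr => place_thm K G d hd htop Y hY φ hB hρ r hr⟩
    · obtain ⟨B, hB⟩ := exists_coefBound (m := m) G d htop φ
      exact ⟨B, hB.1, fun h => absurd h hp, fun ρ r hρ hr => place_thm K G d hd htop Y hY φ hB hρ r hr⟩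
  · exact hD2 p hpp ((le_max_right _ _).trans_lt hp) r hr

end Pool.Agent.NH30.KS
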