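import Pool.Agent.NH30.KS.Stm

/-!
# Task KS-2: finitely many levels
-/

set_option autoImplicit false

namespace Pool.Agent.NH30.KS

namespace FinL

open Finset

variable {p : ℕ} [Fact p.Prime]

/-- natural numbers have norm at least `1 / n` -/
theorem norm_nat_ge {n : ℕ} (hn : 0 < n) : (1 : ℝ) / n ≤ ‖(n : ℂ_[p])‖ := by
  have h1 : ‖(n : ℂ_[p])‖ = ‖(n : ℚ_[p])‖ := by
    have h := PadicComplex.norm_extends' p (n : ℚ_[p])
    rw [← h]
    congr 1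
    simp
  rw [h1]
  have hn0 : (n : ℚ_[p]) ≠ 0 := by
    exact_mod_cast hn.ne'
  rw [Padic.norm_eq_zpow_neg_valuation hn0]
  rw [Padic.valuation_natCast]
  have hdvd : p ^ padicValNat p n ∣ n := pow_padicValNat_dvd
  have hle : p ^ padicValNat p n ≤ n := Nat.le_of_dvd hn hdvd
  have hp0 : 0 < p := (Fact.out : p.Prime).pos
  have hpos : (0 : ℝ) < (p : ℝ) ^ padicValNat p n := by positivity
  rw [zpow_neg, zpow_natCast, one_div]
  apply inv_anti₀ hpos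
  exact_mod_cast hle

theorem nsub (a b : ℂ_[p]) : ‖a - b‖ ≤ max ‖a‖ ‖b‖ := by
  have h := IsUltrametricDist.norm_add_le_max a (-b)
  rwa [norm_neg, ← sub_eq_add_neg] at h

theorem root_norm {ζ : ℂ_[p]} {n : ℕ} (h : ζ ^ n = 1) (hn : n ≠ 0) : ‖ζ‖ = 1 := by
  have h1 : ‖ζ‖ ^ n = 1 := by rw [← norm_pow, h, norm_one]
  exact (pow_eq_one_iff_of_nonneg (norm_nonneg _) hn).1 h1

/-- ultrametric: powers stay near `1` -/
theorem pow_near {η : ℂ_[p]} {ρ : ℝ} (hρ0 : 0 ≤ ρ) (hρ : ρ < 1) (h : ‖1 - η‖ ≤ ρ) (k : ℕ) :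
    ‖1 - η ^ k‖ ≤ ρ := by
  have hη : ‖η‖ ≤ 1 := by
    have h1 : η = 1 - (1 - η) := by ring
    rw [h1]
    refine (nsub 1 (1 - η)).trans ?_
    rw [norm_one]
    exact max_le le_rfl (h.trans hρ.le)
  induction k with
  | zero => simpa using hρ0
  | succ k ih =>
    have h2 : 1 - η ^ (k + 1) = (1 - η ^ k) + η ^ k * (1 - η) := by ring
    rw [h2]
    refine (IsUltrametricDist.norm_add_le_max _ _).trans ?_
    apply max_le ih
    rw [norm_mul, norm_pow]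
    calc ‖η‖ ^ k * ‖1 - η‖ ≤ 1 * ρ := by
          apply mul_le_mul (pow_le_one₀ (norm_nonneg _) hη) h (norm_nonneg _) zero_le_one
      _ = ρ := one_mul _

/-- bound for the order -/
theorem order_bound {η : ℂ_[p]} {ρ : ℝ} (hρ0 : 0 ≤ ρ) (hρ : ρ < 1) (h : ‖1 - η‖ ≤ ρ) {n : ℕ}
    (hη : IsPrimitiveRoot η (n + 1)) : (1 : ℝ) ≤ (n + 1) * ρ ^ n := by
  have h1 := IsPrimitiveRoot.prod_one_sub_pow_eq_order hη
  have h2 : ‖((n : ℂ_[p]) + 1)‖ ≤ ρ ^ n := by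
    rw [← h1, norm_prod]
    calc ∏ k ∈ range n, ‖1 - η ^ (k + 1)‖ ≤ ∏ _k ∈ range n, ρ :=
          prod_le_prod (fun _ _ => norm_nonneg _) (fun k _ => pow_near hρ0 hρ h (k + 1))
      _ = ρ ^ n := by simp
  have h3 := norm_nat_ge (p := p) (n := n + 1) (Nat.succ_pos n)
  push_cast at h3
  have h4 : (0 : ℝ) < (n : ℝ) + 1 := by positivity
  have h5 : 1 / ((n : ℝ) + 1) ≤ ρ ^ n := h3.trans h2
  rw [div_le_iff₀ h4] at h5
  linarith

/-- the orders are bounded -/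
theorem exists_bound {ρ : ℝ} (hρ0 : 0 ≤ ρ) (hρ : ρ < 1) : ∃ n0 : ℕ, ∀ (η : ℂ_[p]) (n : ℕ),
    ‖1 - η‖ ≤ ρ → 0 < n → IsPrimitiveRoot η n → n ≤ n0 := by
  have h1 : Filter.Tendsto (fun n : ℕ => (n : ℝ) * ρ ^ n) Filter.atTop (nhds 0) :=
    tendsto_self_mul_const_pow_of_lt_one hρ0 hρ
  have h2 : Filter.Tendsto (fun n : ℕ => ρ ^ n) Filter.atTop (nhds 0) :=
    tendsto_pow_atTop_nhds_zero_of_lt_one hρ0 hρ
  have h3 := h1.add h2
  rw [add_zero] at h3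
  have h4 := (h3.eventually (gt_mem_nhds (show (0 : ℝ) < 1 by norm_num)))
  obtain ⟨N, hN⟩ := Filter.eventually_atTop.1 h4
  refine ⟨N, ?_⟩
  intro η n h hn hη
  obtain ⟨m, rfl⟩ : ∃ m, n = m + 1 := ⟨n - 1, by omega⟩
  by_contra hcon
  push Not at hcon
  have h5 := hN m (by omega)
  have h6 := order_bound hρ0 hρ h hη
  have h7 : ((m : ℝ) + 1) * ρ ^ m = m * ρ ^ m + ρ ^ m := by ring
  rw [h7] at h6
  linarith

end FinL

open FinL in
theorem s_fin : S_FIN := by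
  intro p _ ρ c c' hρ hc hc'
  by_cases hρ0 : 0 ≤ ρ
  swap
  · push Not at hρ0
    have : levels p ρ c c' = ∅ := by
      apply Set.eq_empty_iff_forall_notMem.2
      rintro N ⟨A, B, g, ζ, -, -, -, -, -, h, -⟩
      have h1 : ρ * ‖c‖ ^ A < 0 := mul_neg_of_neg_of_pos hρ0 (by positivity)
      have h2 := norm_nonneg (c ^ A - ζ * c' ^ B)
      linarith
    rw [this]
    exact Set.finite_empty
  obtain ⟨n0, hn0⟩ := exists_bound (p := p) hρ0 hρ
  -- basic facts of an element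
  have key : ∀ (A B g : ℕ) (ζ : ℂ_[p]), 0 < g → IsPrimitiveRoot ζ g →
      ‖c ^ A - ζ * c' ^ B‖ ≤ ρ * ‖c‖ ^ A →
      ‖c‖ ^ A = ‖c'‖ ^ B ∧ ‖c ^ A / c' ^ B - ζ‖ ≤ ρ ∧ ‖ζ‖ = 1 := by
    intro A B g ζ hg hζ h
    have hζ1 : ‖ζ‖ = 1 := root_norm hζ.pow_eq_one hg.ne'
    have hcA : 0 < ‖c‖ ^ A := by positivity
    have hlt : ‖c ^ A - ζ * c' ^ B‖ < ‖c ^ A‖ := by
      rw [norm_pow]
      calc _ ≤ ρ * ‖c‖ ^ A := h
        _ < 1 * ‖c‖ ^ A := by
          apply mul_lt_mul_of_pos_right hρ hcA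
        _ = _ := one_mul _
    have heq : ‖ζ * c' ^ B‖ = ‖c ^ A‖ := by
      by_contra hne
      have hne2 : ‖c ^ A‖ ≠ ‖-(ζ * c' ^ B)‖ := by
        rw [norm_neg]
        exact Ne.symm hne
      have h3 := IsUltrametricDist.norm_add_eq_max_of_norm_ne_norm hne2
      rw [← sub_eq_add_neg] at h3
      rw [h3] at hlt
      exact absurd (le_max_left ‖c ^ A‖ ‖-(ζ * c' ^ B)‖) (not_le.2 hlt)
    have heq' : ‖c‖ ^ A = ‖c'‖ ^ B := by
      rw [norm_mul, hζ1, one_mul, norm_pow, norm_pow] at heq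
      exact heq.symm
    refine ⟨heq', ?_, hζ1⟩
    have hc'0 : c' ≠ 0 := by
      intro h0
      rw [h0, norm_zero] at hc'
      linarith
    have hB : c' ^ B ≠ 0 := pow_ne_zero _ hc'0
    have e : c ^ A / c' ^ B - ζ = (c ^ A - ζ * c' ^ B) / c' ^ B := by
      field_simp
    rw [e, norm_div, norm_pow, ← heq', div_le_iff₀ hcA]
    exact h
  by_cases hne : (levels p ρ c c').Nonempty
  swap
  · rw [Set.not_nonempty_iff_eq_empty.1 hne]
    exact Set.finite_empty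
  obtain ⟨N0, A0, B0, g0, ζ0, hA0, hB0, hco0, hg0, hζ0, h0, -⟩ := hne
  obtain ⟨heq0, hnear0, hn0z⟩ := key A0 B0 g0 ζ0 hg0 hζ0 h0
  apply (Set.finite_Iic (A0 * B0 * (n0.factorial * g0) ^ 2)).subset
  rintro N ⟨A, B, g, ζ, hA, hB, hco, hg, hζ, h, rfl⟩
  obtain ⟨heq, hnear, hnz⟩ := key A B g ζ hg hζ h
  -- equality of the exponents
  have hlc : 0 < Real.log ‖c‖ := Real.log_pos hc
  have hlc' : 0 < Real.log ‖c'‖ := Real.log_pos hc'
  have l1 : (A : ℝ) * Real.log ‖c‖ = B * Real.log ‖c'‖ := by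
    have := congrArg Real.log heq
    rwa [Real.log_pow, Real.log_pow] at this
  have l0 : (A0 : ℝ) * Real.log ‖c‖ = B0 * Real.log ‖c'‖ := by
    have := congrArg Real.log heq0
    rwa [Real.log_pow, Real.log_pow] at this
  have hcross : (A : ℝ) * B0 = A0 * B := by
    have e1 : ((A : ℝ) * B0) * (Real.log ‖c‖ * Real.log ‖c'‖) =
        (A0 * B) * (Real.log ‖c‖ * Real.log ‖c'‖) := by
      calc ((A : ℝ) * B0) * (Real.log ‖c‖ * Real.log ‖c'‖) =
            (A * Real.log ‖c‖) * (B0 * Real.log ‖c'‖) := by ring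
        _ = (B * Real.log ‖c'‖) * (A0 * Real.log ‖c‖) := by rw [l1, l0]
        _ = _ := by ring
    exact mul_right_cancel₀ (mul_pos hlc hlc').ne' e1
  have hcrossN : A * B0 = A0 * B := by exact_mod_cast hcross
  have hAA : A = A0 := by
    apply Nat.dvd_antisymm
    · have : A ∣ A0 * B := ⟨B0, hcrossN.symm⟩
      exact hco.dvd_of_dvd_mul_right this
    · have : A0 ∣ A * B0 := ⟨B, hcrossN⟩
      exact hco0.dvd_of_dvd_mul_right this
  have hBB : B = B0 := by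
    subst hAA
    exact (Nat.eq_of_mul_eq_mul_left hA hcrossN).symm
  subst hAA hBB
  -- the roots of unity
  have hdiff : ‖ζ0 - ζ‖ ≤ ρ := by
    have e : ζ0 - ζ = (c ^ A / c' ^ B - ζ) - (c ^ A / c' ^ B - ζ0) := by ring
    rw [e]
    exact (nsub _ _).trans (max_le hnear hnear0)
  have hζ00 : ζ0 ≠ 0 := by
    intro h0
    rw [h0, norm_zero] at hn0z
    norm_num at hn0z
  set η : ℂ_[p] := ζ / ζ0 with hη
  have hη1 : ‖1 - η‖ ≤ ρ := by
    have e : 1 - η = (ζ0 - ζ) / ζ0 := by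
      rw [hη]
      field_simp
    rw [e, norm_div, hn0z, div_one]
    exact hdiff
  have hηfin : η ^ (g * g0) = 1 := by
    rw [hη, div_pow, pow_mul, hζ.pow_eq_one, one_pow, mul_comm g g0, pow_mul, hζ0.pow_eq_one,
      one_pow, div_one]
  have hord : 0 < orderOf η := by
    rw [orderOf_pos_iff, isOfFinOrder_iff_pow_eq_one]
    exact ⟨g * g0, Nat.mul_pos hg hg0, hηfin⟩
  have hle : orderOf η ≤ n0 := hn0 η (orderOf η) hη1 hord (IsPrimitiveRoot.orderOf η)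
  have hdvd : orderOf η ∣ n0.factorial := Nat.dvd_factorial hord hle
  have hηf : η ^ n0.factorial = 1 := orderOf_dvd_iff_pow_eq_one.1 hdvd
  have hζe : ζ = η * ζ0 := by
    rw [hη]
    field_simp
  have hζp : ζ ^ (n0.factorial * g0) = 1 := by
    rw [hζe, mul_pow, pow_mul, hηf, one_pow, one_mul, mul_comm n0.factorial g0, pow_mul,
      hζ0.pow_eq_one, one_pow]
  have hgd : g ∣ n0.factorial * g0 := (hζ.pow_eq_one_iff_dvd _).1 hζp
  have hgle : g ≤ n0.factorial * g0 :=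
    Nat.le_of_dvd (Nat.mul_pos (Nat.factorial_pos _) hg0) hgd
  simp only [Set.mem_Iic]
  exact Nat.mul_le_mul_left _ (Nat.pow_le_pow_left hgle 2)

end Pool.Agent.NH30.KS
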