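import Pool.Agent.NH30.KS.Stm
import Pool.Agent.NH30.KT.Fam
import Pool.Agent.Y226.ZP.Modular

/-!
# Zilber-Pink at one place (helper30): definitions and the local theorem for points
-/

set_option autoImplicit false

open Function UpperHalfPlane H294ZP MvPolynomial
open Pool.Agent.W282.ZP
open Pool.Agent.Y226 (ZZ ιZ qT PsiE mP mD nadd_le nsub_le nmul_le nmul_le' neq_of_sub_lt)
open Pool.Agent.NH30.KT (Rel)

namespace Pool.Agent.NH30.KS

/-- A special subvariety of `Y(1)^n = ℂ^n` of dimension `r` (with more constants allowed): a map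
`cls` from the coordinates onto `r` classes (`none` for constant coordinates), an integral matrix
of positive determinant for every coordinate, and a constant for every coordinate, which is a
special point or integral over the ring `O`. -/
structure SpecialVariety (O : Subring ℂ) (n r : ℕ) where
  cls : Fin n → Option (Fin r)
  surj : ∀ l : Fin r, ∃ i, cls i = some l
  mat : Fin n → Matrix (Fin 2) (Fin 2) ℤ
  det_pos : ∀ i, 0 < (mat i).det
  const : Fin n → ℂ
  allowed : ∀ i, (∃ τ : ℍ, IsCM τ ∧ const i = jj τ) ∨ IsIntegral O (const i)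

/-- The points of the special subvariety: the constant coordinates are the given constants, and the
coordinates of class `l` are `j (g_i z_l)`, with a free parameter `z_l` in the upper half plane. -/
def SpecialVariety.locus {O : Subring ℂ} {n r : ℕ} (Z : SpecialVariety O n r) :
    Set (Fin n → ℂ) :=
  {x | ∃ z : Fin r → ℍ, ∀ i, (Z.cls i = none → x i = Z.const i) ∧
    ∀ l, Z.cls i = some l → ∃ w : ℍ,
      (w : ℂ) * (Z.mat i 1 0 * z l + Z.mat i 1 1) = Z.mat i 0 0 * z l + Z.mat i 0 1 ∧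
      x i = jj w}

/-- The atypical intersections of `X` (of dimension `m`) are contained in the special subvarieties
given by an isogeny of degree `N ∈ L i j`, `N > 0`, between two coordinates `x i` and `x j`. -/
def ZPin (K : Subfield ℂ) (O : Subring ℂ) {n : ℕ} (m : ℕ) (X : Set (Fin n → ℂ))
    (L : Fin n → Fin n → Set ℕ) : Prop :=
  ∀ (r : ℕ) (Z : SpecialVariety O n r),
    (∀ A ⊆ X ∩ Z.locus, zcl A ⊆ A → (idealOf A).IsPrime →
      (r : Cardinal) + (m : Cardinal) < zdim A + (n : Cardinal) →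
      ∃ i j, i < j ∧ ∃ N ∈ L i j, 0 < N ∧ ∀ x ∈ A, Rel N (x i) (x j)) ∧
    ∀ x ∈ X ∩ Z.locus, ∀ S : Finset (Fin n), AlgebraicIndependent K (fun i : S => x i) →
      r + m < S.card + n → ∃ i j, i < j ∧ ∃ N ∈ L i j, 0 < N ∧ Rel N (x i) (x j)

/-- the elements of `K` which are integral at the place `φ` -/
def intRing {p : ℕ} [Fact p.Prime] (K : Subfield ℂ) (φ : K →+* ℂ_[p]) : Subring ℂ where
  carrier := {z | ∃ h : z ∈ K, ‖φ ⟨z, h⟩‖ ≤ 1}
  one_mem' := ⟨K.one_mem, by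
    rw [show (⟨1, K.one_mem⟩ : K) = 1 from rfl, map_one, norm_one]⟩
  zero_mem' := ⟨K.zero_mem, by
    rw [show (⟨0, K.zero_mem⟩ : K) = 0 from rfl, map_zero, norm_zero]; exact zero_le_one⟩
  add_mem' := by
    rintro a b ⟨ha, ha'⟩ ⟨hb, hb'⟩
    refine ⟨K.add_mem ha hb, ?_⟩
    rw [show (⟨a + b, K.add_mem ha hb⟩ : K) = ⟨a, ha⟩ + ⟨b, hb⟩ from rfl, map_add]
    exact nadd_le ha' hb'
  mul_mem' := by
    rintro a b ⟨ha, ha'⟩ ⟨hb, hb'⟩
    refine ⟨K.mul_mem ha hb, ?_⟩
    rw [show (⟨a * b, K.mul_mem ha hb⟩ : K) = ⟨a, ha⟩ * ⟨b, hb⟩ from rfl, map_mul]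
    exact nmul_le ha' hb'
  neg_mem' := by
    rintro a ⟨ha, ha'⟩
    refine ⟨K.neg_mem ha, ?_⟩
    rw [show (⟨-a, K.neg_mem ha⟩ : K) = -⟨a, ha⟩ from rfl, map_neg, norm_neg]
    exact ha'

section one

variable {p : ℕ} [hpf : Fact p.Prime]

/-- a zero of a monic polynomial with integral coefficients is integral -/
theorem norm_le_of_monic {P : Polynomial ℂ_[p]} (hP : P.Monic) (hc : ∀ i, ‖P.coeff i‖ ≤ 1)
    {y : ℂ_[p]} (h : P.eval y = 0) : ‖y‖ ≤ 1 := by
  by_contra hcon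
  push Not at hcon
  rw [Polynomial.eval_eq_sum_range, Finset.sum_range_succ] at h
  rw [show P.coeff P.natDegree = 1 from hP, one_mul] at h
  rcases Nat.eq_zero_or_pos P.natDegree with h0 | h0
  · rw [h0] at h
    simp at h
  have h1 : ‖∑ i ∈ Finset.range P.natDegree, P.coeff i * y ^ i‖ ≤ ‖y‖ ^ (P.natDegree - 1) := by
    refine Pool.Agent.Y226.nsum_le _ _ (by positivity) fun i hi => ?_
    rw [norm_mul, norm_pow]
    have h2 : i ≤ P.natDegree - 1 := by
      have := Finset.mem_range.1 hi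
      omega
    calc ‖P.coeff i‖ * ‖y‖ ^ i ≤ 1 * ‖y‖ ^ (P.natDegree - 1) := by
          gcongr
          · exact hc i
          · exact hcon.le
      _ = _ := one_mul _
  have h2 : ‖y ^ P.natDegree‖ = ‖∑ i ∈ Finset.range P.natDegree, P.coeff i * y ^ i‖ := by
    rw [eq_neg_of_add_eq_zero_left h, norm_neg]
  rw [norm_pow] at h2
  have h3 : ‖y‖ ^ P.natDegree = ‖y‖ ^ (P.natDegree - 1) * ‖y‖ := by
    rw [← pow_succ]
    congr 1
    omega
  have h4 : 0 < ‖y‖ ^ (P.natDegree - 1) := by positivity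
  rw [← h2, h3] at h1
  nlinarith

variable (Φ : ℂ →+* ℂ_[p])

/-- elements integral over a ring of elements of norm at most one -/
theorem norm_le_of_integral (O : Subring ℂ) (hO : ∀ z ∈ O, ‖Φ z‖ ≤ 1) {y : ℂ}
    (hy : IsIntegral O y) : ‖Φ y‖ ≤ 1 := by
  obtain ⟨P, hP, hPy⟩ := hy
  refine norm_le_of_monic (P := P.map (Φ.comp (algebraMap O ℂ))) (hP.map _) (fun i => ?_) ?_
  · rw [Polynomial.coeff_map]
    exact hO _ (P.coeff i).2
  · rw [Polynomial.eval_map, ← Polynomial.hom_eval₂, hPy, map_zero]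

theorem norm_le_of_int {y : ℂ} (hy : IsIntegral ℤ y) : ‖Φ y‖ ≤ 1 := by
  obtain ⟨P, hP, hPy⟩ := hy
  refine norm_le_of_monic (P := P.map (Φ.comp (algebraMap ℤ ℂ))) (hP.map _) (fun i => ?_) ?_
  · rw [Polynomial.coeff_map]
    show ‖Φ ((P.coeff i : ℤ) : ℂ)‖ ≤ 1
    rw [map_intCast]
    exact Pool.Agent.Y226.nint _
  · rw [Polynomial.eval_map, ← Polynomial.hom_eval₂, hPy, map_zero]

theorem psi_le (z : ZZ) : ‖(Φ.comp ιZ) z‖ ≤ 1 := norm_le_of_int Φ z.2

/-- integrality over a coordinate -/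
theorem norm_le_of_adjoin {x y : ℂ} (hx : ‖Φ x‖ ≤ 1) (hy : IsIntegral (Algebra.adjoin ℤ {x}) y) :
    ‖Φ y‖ ≤ 1 := by
  refine norm_le_of_integral Φ (Algebra.adjoin ℤ {x}).toSubring ?_ (y := y) ?_
  · intro z hz
    have hz' : z ∈ Algebra.adjoin ℤ {x} := hz
    induction hz' using Algebra.adjoin_induction with
    | mem t ht =>
      rw [Set.mem_singleton_iff] at ht
      rw [ht]
      exact hx
    | algebraMap t =>
      show ‖Φ ((t : ℤ) : ℂ)‖ ≤ 1
      rw [map_intCast]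
      exact Pool.Agent.Y226.nint _
    | add s t _ _ hs ht =>
      rw [map_add]
      exact nadd_le (hs ‹_›) (ht ‹_›)
    | mul s t _ _ hs ht =>
      rw [map_mul]
      exact nmul_le (hs ‹_›) (ht ‹_›)
  · exact hy

/-- the levels at which two coordinates near to centers can be related -/
theorem pair_level {ρ : ℝ} (hρ : ρ < 1) {c c' : ℂ_[p]} (hc : 1 ≤ ρ * ‖c‖) (hc' : 1 ≤ ρ * ‖c'‖)
    {x y : ℂ} (hx : ‖Φ x - c‖ ≤ ρ * ‖c‖) (hy : ‖Φ y - c'‖ ≤ ρ * ‖c'‖) {τ w : ℍ} {a b e d : ℤ}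
    (hdet : 0 < a * d - b * e) (hw : (w : ℂ) * (e * τ + d) = a * τ + b) (hxτ : x = jj τ)
    (hyw : y = jj w) : ∃ N ∈ levels p ρ c c', Rel N x y := by
  set ψ := Φ.comp ιZ with hψd
  have hψ : ∀ z, ‖ψ z‖ ≤ 1 := psi_le Φ
  have hρ0 : 0 < ρ := by
    by_contra hcon
    push Not at hcon
    have : ρ * ‖c‖ ≤ 0 := mul_nonpos_of_nonpos_of_nonneg hcon (norm_nonneg _)
    linarith
  have hc1 : 1 < ‖c‖ := by nlinarith [norm_nonneg c]
  have hc1' : 1 < ‖c'‖ := by nlinarith [norm_nonneg c']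
  have hnear : ∀ {z v : ℂ_[p]}, 1 < ‖v‖ → ‖z - v‖ ≤ ρ * ‖v‖ → ‖z‖ = ‖v‖ := by
    intro z v hv h
    refine neq_of_sub_lt (h.trans_lt ?_)
    nlinarith
  have hxn : ‖Φ x‖ = ‖c‖ := hnear hc1 hx
  have hyn : ‖Φ y‖ = ‖c'‖ := hnear hc1' hy
  obtain ⟨A, B, g, ζ, hA, hB, hAB, hg, hζ, hq, hy1, hΨ⟩ :=
    Pool.Agent.Y226.tate_rel (ψ := ψ) hψ (i₀ := ιZ) (ρ := RingHom.id ℂ) (φ := Φ) rfl rfl hdet hw
      (X := x) (Y := y) hxτ hyw (by rw [hxn]; exact hc1)
  refine ⟨A * B * g ^ 2, ⟨A, B, g, ζ, hA, hB, hAB, hg, hζ, ?_, rfl⟩, ?_⟩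
  · -- the approximation
    have hcc : ∀ {z v : ℂ_[p]}, 1 < ‖v‖ → 1 ≤ ρ * ‖v‖ → ‖z - v‖ ≤ ρ * ‖v‖ →
        ‖qT ψ z * v - 1‖ ≤ ρ := by
      intro z v hv hv2 h
      have hzv := hnear hv h
      have hz1 : 1 < ‖z‖ := by rw [hzv]; exact hv
      have e1 := Pool.Agent.Y226.qT_expand' hψ hz1
      have e2 := Pool.Agent.Y226.qT_norm hψ hz1
      have e3 : qT ψ z * v - 1 = (qT ψ z * z - 1) - qT ψ z * (z - v) := by ring
      rw [e3]
      refine nsub_le (e1.trans ?_) ?_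
      · rw [hzv]
        have : 0 < ‖v‖ := by linarith
        rw [inv_le_iff_one_le_mul₀ this]
        exact hv2
      · rw [norm_mul, e2, hzv]
        have : 0 < ‖v‖ := by linarith
        calc ‖v‖⁻¹ * ‖z - v‖ ≤ ‖v‖⁻¹ * (ρ * ‖v‖) := by gcongr
          _ = ρ := by field_simp
    have hX := hcc hc1 hc hx
    have hY := hcc hc1' hc' hy
    set qx := qT ψ (Φ x) with hqx
    set qy := qT ψ (Φ y) with hqy
    have hone : ∀ {u : ℂ_[p]}, ‖u - 1‖ ≤ ρ → ‖u‖ = 1 := fun h =>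
      Pool.Agent.Y226.neq_one (h.trans_lt hρ) norm_one
    have hXA : ‖(qx * c) ^ A - 1‖ ≤ ρ := by
      have := Pool.Agent.Y226.npow_sub_pow (hone hX).le (norm_one (α := ℂ_[p])).le hX A
      rwa [one_pow] at this
    have hYB : ‖(qy * c') ^ B - 1‖ ≤ ρ := by
      have := Pool.Agent.Y226.npow_sub_pow (hone hY).le (norm_one (α := ℂ_[p])).le hY B
      rwa [one_pow] at this
    have hqx0 : qx ≠ 0 := Pool.Agent.Y226.qT_ne hψ (by rw [hxn]; exact hc1)
    have hqn : ‖qx‖ = ‖c‖⁻¹ := by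
      rw [hqx, Pool.Agent.Y226.qT_norm hψ (by rw [hxn]; exact hc1), hxn]
    -- multiply by `qx ^ A`
    have key : ‖qx ^ A * (c ^ A - ζ * c' ^ B)‖ ≤ ρ := by
      have e1 : qx ^ A * (c ^ A - ζ * c' ^ B) = ((qx * c) ^ A - 1) - ((qy * c') ^ B - 1) := by
        rw [mul_pow, mul_pow, hq]
        ring
      rw [e1]
      exact nsub_le hXA hYB
    rw [norm_mul, norm_pow, hqn, inv_pow] at key
    have hcA : 0 < ‖c‖ ^ A := by positivity
    rw [inv_mul_le_iff₀ hcA] at key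
    rw [mul_comm ρ]
    exact key
  · -- the relation
    have hN : 0 < A * B * g ^ 2 := by positivity
    obtain ⟨ι, _, α, δ, β, h, h1, h2, -, h4, -⟩ := Pool.Agent.Y226.modular_spec _ hN
    rw [← h4] at hΨ
    obtain ⟨k, -, hk⟩ := Finset.prod_eq_zero_iff.1 hΨ
    rw [sub_eq_zero] at hk
    refine ⟨τ, h k τ, α k, β k, 0, δ k, ?_, ?_, hxτ, hyw.trans hk⟩
    · have := (h1 k).2.2
      rw [mul_zero, sub_zero]
      exact_mod_cast this
    · have := h2 k τ
      push_cast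
      rw [zero_mul, zero_add]
      exact this

end one

/-- `z` is near to one of the centers -/
def Near {p : ℕ} [Fact p.Prime] (R : Finset ℂ_[p]) (ρ : ℝ) (z : ℂ_[p]) : Prop :=
  ∃ c ∈ R, ‖z - c‖ ≤ ρ * ‖c‖

/-- all levels for two sets of centers -/
def levelSet {p : ℕ} [Fact p.Prime] {n : ℕ} (R : Fin n → Finset ℂ_[p]) (ρ : ℝ) (i j : Fin n) :
    Set ℕ := {N | ∃ c ∈ R i, ∃ c' ∈ R j, N ∈ levels p ρ c c'}

/-- The local theorem for points. -/
theorem point_thm (hemb : S_EMB) {p : ℕ} [hpf : Fact p.Prime] {n : ℕ} {R : Fin n → Finset ℂ_[p]}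
    {ρ : ℝ} (hρ : ρ < 1) (hR : ∀ i, ∀ c ∈ R i, 1 ≤ ρ * ‖c‖) (K : Subfield ℂ) [Countable K]
    (φ : K →+* ℂ_[p]) {m : ℕ} {X : Set (Fin n → ℂ)}
    (hX : ∀ x ∈ X, ∀ Φ : ℂ →+* ℂ_[p], (∀ z : K, Φ z = φ z) → ∀ J : Finset (Fin n),
      J.card = m + 1 → ∃ j ∈ J, Near (R j) ρ (Φ (x j))) {r : ℕ}
    (Z : SpecialVariety (intRing K φ) n r) {x : Fin n → ℂ} (hx : x ∈ X ∩ Z.locus)
    (S : Finset (Fin n)) (hS : AlgebraicIndependent K (fun i : S => x i))
    (hrS : r + m < S.card + n) :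
    ∃ i j, i < j ∧ (∃ l, Z.cls i = some l ∧ Z.cls j = some l) ∧
      ∃ N ∈ levelSet R ρ i j, Rel N (x i) (x j) := by
  classical
  obtain ⟨hxX, z, hz⟩ := hx
  obtain ⟨Φ, hΦ, hΦS⟩ := hemb p K φ S (fun i : S => x i) hS
  have hO : ∀ y ∈ intRing K φ, ‖Φ y‖ ≤ 1 := by
    rintro y ⟨hy, hy'⟩
    have := hΦ ⟨y, hy⟩
    rw [← this] at hy'
    exact hy'
  have hconst : ∀ i, Z.cls i = none → ‖Φ (x i)‖ ≤ 1 := by
    intro i hi
    rw [(hz i).1 hi]
    rcases Z.allowed i with ⟨τ, hτ, h⟩ | h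
    · rw [h]
      exact norm_le_of_int Φ (singular_modulus_integral τ hτ)
    · exact norm_le_of_integral Φ _ hO h
  have halg : ∀ i, Z.cls i = none → IsAlgebraic K (x i) := by
    intro i hi
    rw [(hz i).1 hi]
    rcases Z.allowed i with ⟨τ, hτ, h⟩ | h
    · rw [h]
      exact ((singular_modulus_integral τ hτ).tower_top (A := K)).isAlgebraic
    · obtain ⟨P, hP, hPe⟩ := h
      let f : intRing K φ →+* K :=
        { toFun := fun y => ⟨y, y.2.1⟩
          map_one' := rfl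
          map_zero' := rfl
          map_mul' := fun _ _ => rfl
          map_add' := fun _ _ => rfl }
      have hint : IsIntegral K (Z.const i) := by
        refine ⟨P.map f, hP.map _, ?_⟩
        rw [Polynomial.eval₂_map]
        exact hPe
      exact hint.isAlgebraic
  have hint : ∀ i j k, Z.cls i = some k → Z.cls j = some k →
      IsIntegral (Algebra.adjoin ℤ {x i}) (x j) := by
    intro i j k hi hj
    obtain ⟨w, hw, hxw⟩ := (hz i).2 k hi
    obtain ⟨w', hw', hxw'⟩ := (hz j).2 k hj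
    obtain ⟨a', b', c', d', e1, e2⟩ := isogeny_rel (Z.det_pos i) hw hw'
    rw [hxw, hxw']
    exact isogenous_integral w w' a' b' c' d' (by
      rw [e1]
      exact mul_pos (Z.det_pos i) (Z.det_pos j)) e2
  -- the classes of the independent coordinates
  have hSsome : ∀ t : S, ∃ k, Z.cls t = some k := by
    intro t
    cases hc : Z.cls t with
    | none => exact ((hS.transcendental t) (halg t hc)).elim
    | some k => exact ⟨k, rfl⟩
  choose cl hcl using hSsome
  have hclinj : Function.Injective cl := by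
    intro t t' htt
    by_contra hne
    exact TH526.ZL.not_algInd' hS hne (hint t t' (cl t) (hcl t) (by rw [htt]; exact hcl t'))
  -- the coordinates which are not near to a center
  set E : Finset (Fin n) := Finset.univ.filter fun i => ¬ Near (R i) ρ (Φ (x i)) with hE
  have hEm : E.card ≤ m := by
    by_contra hcard
    push Not at hcard
    obtain ⟨J, hJE, hJ⟩ := Finset.exists_subset_card_eq (Nat.succ_le_of_lt hcard)
    obtain ⟨j, hj, hjn⟩ := hX x hxX Φ hΦ J hJ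
    exact (Finset.mem_filter.1 (hJE hj)).2 hjn
  have hnear : ∀ i, i ∉ E → Near (R i) ρ (Φ (x i)) := by
    intro i hi
    by_contra hcon
    exact hi (Finset.mem_filter.2 ⟨Finset.mem_univ i, hcon⟩)
  have hgt : ∀ i, i ∉ E → 1 < ‖Φ (x i)‖ := by
    intro i hi
    obtain ⟨c, hc, hcn⟩ := hnear i hi
    have h1 := hR i c hc
    have hρ0 : 0 < ρ := by
      by_contra hcon
      push Not at hcon
      have : ρ * ‖c‖ ≤ 0 := mul_nonpos_of_nonpos_of_nonneg hcon (norm_nonneg _)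
      linarith
    have hc1 : 1 < ‖c‖ := by nlinarith [norm_nonneg c]
    have h2 : ‖Φ (x i)‖ = ‖c‖ := by
      refine neq_of_sub_lt (hcn.trans_lt ?_)
      nlinarith
    rw [h2]
    exact hc1
  -- pigeonhole
  let Fr : Finset (Option (Fin r)) := (Finset.univ.filter fun k : Fin r =>
    k ∉ Finset.univ.image cl).image some
  have hFr : Fr.card + S.card = r := by
    have h1 : Fr.card = (Finset.univ.filter fun k : Fin r =>
        k ∉ Finset.univ.image cl).card :=
      Finset.card_image_of_injective _ (Option.some_injective _)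
    have h2 : (Finset.univ.filter fun k : Fin r => k ∈ Finset.univ.image cl).card = S.card := by
      have h3 : (Finset.univ.filter fun k : Fin r => k ∈ Finset.univ.image cl) =
          Finset.univ.image cl := by
        ext k; simp
      rw [h3, Finset.card_image_of_injective _ hclinj, Finset.card_univ, Fintype.card_coe]
    have := Finset.card_filter_add_card_filter_not (s := (Finset.univ : Finset (Fin r)))
      (fun k => k ∈ Finset.univ.image cl)
    rw [Finset.card_univ, Fintype.card_fin] at this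
    rw [h1]
    omega
  have hEc : Eᶜ.card + E.card = n := by
    have := Finset.card_compl_add_card E
    rwa [Fintype.card_fin] at this
  have hmaps : ∀ i ∈ Eᶜ, Z.cls i ∈ Fr := by
    intro i hi
    have h1 := hgt i (Finset.mem_compl.1 hi)
    cases hc : Z.cls i with
    | none => exact absurd (hconst i hc) (not_le.2 h1)
    | some k =>
      refine Finset.mem_image.2 ⟨k, Finset.mem_filter.2 ⟨Finset.mem_univ k, ?_⟩, rfl⟩
      intro hk
      obtain ⟨t, -, ht⟩ := Finset.mem_image.1 hk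
      have h2 : ‖Φ (x i)‖ ≤ 1 :=
        norm_le_of_adjoin Φ (hΦS t) (hint t i k (by rw [hcl t, ht]) hc)
      exact absurd h2 (not_le.2 h1)
  obtain ⟨i, hi, j, hj, hij, hcij⟩ := Finset.exists_ne_map_eq_of_card_lt_of_maps_to
    (s := Eᶜ) (t := Fr) (by omega) hmaps
  have hmain : ∀ i j : Fin n, i ∈ Eᶜ → j ∈ Eᶜ → i < j → Z.cls i = Z.cls j →
      ∃ i j, i < j ∧ (∃ l, Z.cls i = some l ∧ Z.cls j = some l) ∧
        ∃ N ∈ levelSet R ρ i j, Rel N (x i) (x j) := by
    intro i j hi hj hij hc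
    obtain ⟨l, -, hl⟩ := Finset.mem_image.1 (hmaps i hi)
    have hl' : Z.cls j = some l := by rw [← hc, ← hl]
    obtain ⟨c, hc1, hc2⟩ := hnear i (Finset.mem_compl.1 hi)
    obtain ⟨c', hc1', hc2'⟩ := hnear j (Finset.mem_compl.1 hj)
    obtain ⟨w, hw, hxw⟩ := (hz i).2 l hl.symm
    obtain ⟨w', hw', hxw'⟩ := (hz j).2 l hl'
    obtain ⟨a', b', e', d', e1, e2⟩ := isogeny_rel (Z.det_pos i) hw hw'
    obtain ⟨N, hN, hrel⟩ := pair_level Φ hρ (hR i c hc1) (hR j c' hc1') hc2 hc2'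
      (a := a') (b := b') (e := e') (d := d') (by
        rw [e1]
        exact mul_pos (Z.det_pos i) (Z.det_pos j)) e2 hxw hxw'
    exact ⟨i, j, hij, ⟨l, hl.symm, hl'⟩, N, ⟨c, hc1, c', hc1', hN⟩, hrel⟩
  rcases lt_or_gt_of_ne hij with h | h
  · exact hmain i j hi hj h hcij
  · exact hmain j i hj hi h hcij.symm

end Pool.Agent.NH30.KS
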