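import Pool.Agent.NH30.KS.Loc

/-!
# Zilber-Pink at one place (helper30): the local theorem
-/

set_option autoImplicit false

open Function UpperHalfPlane H294ZP MvPolynomial
open Pool.Agent.W282.ZP
open Pool.Agent.Y226 (ZZ ιZ qT PsiE mP mD)
open Pool.Agent.NH30.KT (Rel)

namespace Pool.Agent.NH30.KS

/-- the modular polynomial in the coordinates `i`, `j` -/
noncomputable def modPol {n : ℕ} (N : ℕ) (i j : Fin n) : MvPolynomial (Fin n) ℂ :=
  ∑ k ∈ Finset.range (mD N + 1), ((mP N k).eval₂ ((C : ℂ →+* MvPolynomial (Fin n) ℂ).comp ιZ) (X i)) *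
    X j ^ k

theorem eval_modPol {n : ℕ} (N : ℕ) (i j : Fin n) (x : Fin n → ℂ) :
    eval x (modPol N i j) = PsiE ιZ (mP N) (mD N) (x i) (x j) := by
  unfold modPol PsiE
  rw [map_sum]
  refine Finset.sum_congr rfl fun k _ => ?_
  rw [map_mul, map_pow, eval_X, Polynomial.hom_eval₂, eval_X]
  congr 2
  ext z
  simp

theorem rel_iff {N : ℕ} (hN : 0 < N) {x y : ℂ} (hx : ∃ τ, x = jj τ) :
    Rel N x y ↔ PsiE ιZ (mP N) (mD N) x y = 0 := by
  obtain ⟨ι, _, α, δ, β, h, h1, h2, -, h4, h5⟩ := Pool.Agent.Y226.modular_spec N hN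
  constructor
  · rintro ⟨τ, w, a, b, c, d, hdet, hw, rfl, rfl⟩
    exact h5 τ w a b c d hdet hw
  · obtain ⟨τ, rfl⟩ := hx
    intro h0
    rw [← h4] at h0
    obtain ⟨k, -, hk⟩ := Finset.prod_eq_zero_iff.1 h0
    rw [sub_eq_zero] at hk
    refine ⟨τ, h k τ, α k, β k, 0, δ k, ?_, ?_, rfl, hk⟩
    · have := (h1 k).2.2
      rw [mul_zero, sub_zero]
      exact_mod_cast this
    · have := h2 k τ
      push_cast
      rw [zero_mul, zero_add]
      exact this

/-- Points of an irreducible set which are generic over a countable field and avoid countably many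
hypersurfaces. -/
theorem generic_avoid {n : ℕ} (K : Type) [Field K] [Countable K] [Algebra K ℂ]
    (A : Set (Fin n → ℂ)) (hA : (idealOf A).IsPrime) (hcl : zcl A ⊆ A) {β : Type} [Countable β]
    (F : β → MvPolynomial (Fin n) ℂ) (hF : ∀ i, F i ∉ idealOf A) :
    ∃ x ∈ A, (∃ T : Finset (Fin n), AlgebraicIndependent K (fun j : T => x j) ∧
      zdim A ≤ (T.card : Cardinal)) ∧ ∀ i, eval x (F i) ≠ 0 := by
  classical
  obtain ⟨Ω, _, _, z, hz, T, hT, hdim⟩ := generic_point (idealOf A)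
  let G : {f : MvPolynomial T K // f ≠ 0} → MvPolynomial (Fin n) ℂ := fun f =>
    rename (Subtype.val : T → Fin n) (MvPolynomial.map (algebraMap K ℂ) f.1)
  have : Countable (MvPolynomial T K) := by
    rw [← Cardinal.mk_le_aleph0_iff]
    refine MvPolynomial.cardinalMk_le_max.trans ?_
    refine max_le (max_le Cardinal.mk_le_aleph0 Cardinal.mk_le_aleph0) le_rfl
  have hG : ∀ f, G f ∉ idealOf A := by
    intro f hf
    have h1 := (hz _).2 hf
    rw [aeval_rename] at h1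
    have h2 : MvPolynomial.map (algebraMap K ℂ) f.1 = 0 := by
      apply hT
      rw [map_zero]
      exact h1
    apply f.2
    have h3 : Function.Injective (MvPolynomial.map (σ := T) (algebraMap K ℂ)) :=
      MvPolynomial.map_injective _ (algebraMap K ℂ).injective
    exact h3 (by rw [h2, map_zero])
  obtain ⟨x, hx1, hx2⟩ := Pool.Agent.W466.ZC.exists_point (idealOf A) (Sum.elim G F) (by
    rintro (f | i)
    · exact hG f
    · exact hF i)
  refine ⟨x, hcl hx1, ⟨T, ?_, hdim⟩, fun i => hx2 (Sum.inr i)⟩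
  rw [algebraicIndependent_iff]
  intro f hf
  by_contra hne
  apply hx2 (Sum.inl ⟨f, hne⟩)
  show eval x (rename (Subtype.val : T → Fin n) (MvPolynomial.map (algebraMap K ℂ) f)) = 0
  rw [eval_rename, eval_map]
  exact hf

theorem levelSet_pos {p : ℕ} [Fact p.Prime] {n : ℕ} {R : Fin n → Finset ℂ_[p]} {ρ : ℝ}
    {i j : Fin n} {N : ℕ} (h : N ∈ levelSet R ρ i j) : 0 < N := by
  obtain ⟨c, -, c', -, A, B, g, ζ, hA, hB, -, hg, -, -, rfl⟩ := h
  positivity

/-- **The local theorem.** -/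
theorem local_thm (hemb : S_EMB) {p : ℕ} [hpf : Fact p.Prime] {n : ℕ} {R : Fin n → Finset ℂ_[p]}
    {ρ : ℝ} (hρ : ρ < 1) (hR : ∀ i, ∀ c ∈ R i, 1 ≤ ρ * ‖c‖) (K : Subfield ℂ) [Countable K]
    (φ : K →+* ℂ_[p]) {m : ℕ} {X : Set (Fin n → ℂ)}
    (hX : ∀ x ∈ X, ∀ Φ : ℂ →+* ℂ_[p], (∀ z : K, Φ z = φ z) → ∀ J : Finset (Fin n),
      J.card = m + 1 → ∃ j ∈ J, Near (R j) ρ (Φ (x j))) :
    ZPin K (intRing K φ) m X (levelSet R ρ) := by
  classical
  intro r Z
  refine ⟨?_, ?_⟩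
  · intro A hA hcl hprime hdim
    by_contra hcon
    push Not at hcon
    let β := {q : Fin n × Fin n × ℕ // q.1 < q.2.1 ∧ (∃ l, Z.cls q.1 = some l ∧
      Z.cls q.2.1 = some l) ∧ q.2.2 ∈ levelSet R ρ q.1 q.2.1}
    obtain ⟨x, hxA, ⟨T, hT, hTdim⟩, hav⟩ := generic_avoid K A hprime hcl
      (fun q : β => modPol q.1.2.2 q.1.1 q.1.2.1) (by
        rintro ⟨⟨i, j, N⟩, hij, ⟨l, hl, _hl'⟩, hN⟩ hmem
        obtain ⟨x, hx, hxr⟩ := hcon i j hij N hN (levelSet_pos hN)
        apply hxr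
        obtain ⟨z, hz⟩ := (hA hx).2
        obtain ⟨w, -, hxw⟩ := (hz i).2 l hl
        rw [rel_iff (levelSet_pos hN) ⟨w, hxw⟩, ← eval_modPol]
        exact mem_idealOf.1 hmem x hx)
    have hlt : r + m < T.card + n := by
      have h1 : (r : Cardinal) + (m : Cardinal) < (T.card : Cardinal) + (n : Cardinal) :=
        hdim.trans_le (by gcongr)
      exact_mod_cast h1
    obtain ⟨i, j, hij, ⟨l, hl, hl'⟩, N, hN, hrel⟩ :=
      point_thm hemb hρ hR K φ hX Z (hA hxA) T hT hlt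
    refine hav ⟨⟨i, j, N⟩, hij, ⟨l, hl, hl'⟩, hN⟩ ?_
    rw [eval_modPol]
    obtain ⟨z, hz⟩ := (hA hxA).2
    obtain ⟨w, -, hxw⟩ := (hz i).2 l hl
    exact (rel_iff (levelSet_pos hN) ⟨w, hxw⟩).1 hrel
  · intro x hx S hS hlt
    obtain ⟨i, j, hij, -, N, hN, hrel⟩ := point_thm hemb hρ hR K φ hX Z hx S hS hlt
    exact ⟨i, j, hij, N, hN, levelSet_pos hN, hrel⟩

end Pool.Agent.NH30.KS
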