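import Pool.Agent.NH30.KS.Trans
import Pool.Agent.NH30.KS.Count

/-!
# Zilber-Pink at one place (helper30): rational translates
-/

set_option autoImplicit false

open Function UpperHalfPlane H294ZP MvPolynomial
open Pool.Agent.W282.ZP
open Pool.Agent.NH30.KT (Rel)

namespace Pool.Agent.NH30.KS

/-- change of the ring -/
def SpecialVariety.change {O O' : Subring ℂ} (h : O ≤ O') {n r : ℕ} (Z : SpecialVariety O n r) :
    SpecialVariety O' n r where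
  cls := Z.cls
  surj := Z.surj
  mat := Z.mat
  det_pos := Z.det_pos
  const := Z.const
  allowed := fun i => by
    rcases Z.allowed i with h1 | h1
    · exact Or.inl h1
    · right
      obtain ⟨P, hP, hPe⟩ := h1
      refine ⟨P.map (Subring.inclusion h), hP.map _, ?_⟩
      rw [Polynomial.eval₂_map]
      exact hPe

theorem ZPin.mono {K : Subfield ℂ} {O O' : Subring ℂ} (h : O ≤ O') {n m : ℕ}
    {X : Set (Fin n → ℂ)} {L L' : Fin n → Fin n → Set ℕ} (hL : ∀ i j, L i j ⊆ L' i j)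
    (hZ : ZPin K O' m X L) : ZPin K O m X L' := by
  intro r Z
  refine ⟨fun A hA hcl hprime hdim => ?_, fun x hx S hS hlt => ?_⟩
  · obtain ⟨i, j, hij, N, hN, hx⟩ := (hZ r (Z.change h)).1 A hA hcl hprime hdim
    exact ⟨i, j, hij, N, hL i j hN, hx⟩
  · obtain ⟨i, j, hij, N, hN, hx⟩ := (hZ r (Z.change h)).2 x hx S hS hlt
    exact ⟨i, j, hij, N, hL i j hN, hx⟩

section place

variable {p : ℕ} [hpf : Fact p.Prime]

theorem norm_rat (q : ℚ) : ‖(q : ℂ_[p])‖ = ‖(q : ℚ_[p])‖ := by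
  have h := PadicComplex.norm_extends' p (q : ℚ_[p])
  rw [← h]
  congr 1
  have : ((q : ℚ_[p]) : ℂ_[p]) = algebraMap ℚ_[p] ℂ_[p] (q : ℚ_[p]) := rfl
  rw [this, map_ratCast]

theorem norm_int_unit {a : ℤ} (ha : ¬ (p : ℤ) ∣ a) : ‖(a : ℂ_[p])‖ = 1 := by
  have h1 := norm_rat (p := p) (a : ℚ)
  push_cast at h1
  rw [h1]
  refine le_antisymm (Padic.norm_int_le_one a) ?_
  by_contra hcon
  push Not at hcon
  exact ha (Padic.norm_intCast_lt_one_iff.1 hcon)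

/-- a prime in the denominator -/
theorem norm_den {q : ℚ} (h : p ∣ q.den) : (p : ℝ) ≤ ‖(q : ℂ_[p])‖ := by
  have hp := hpf.out
  have h1 : (q : ℂ_[p]) * ((q.den : ℤ) : ℂ_[p]) = ((q.num : ℤ) : ℂ_[p]) := by
    have := Rat.mul_den_eq_num q
    exact_mod_cast congrArg (fun z : ℚ => (z : ℂ_[p])) this
  have h2 : ‖((q.num : ℤ) : ℂ_[p])‖ = 1 := by
    refine norm_int_unit fun h3 => ?_
    have h4 : p ∣ q.num.natAbs := Int.natCast_dvd.1 h3
    have h5 := Nat.dvd_gcd h4 h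
    rw [q.reduced] at h5
    exact hp.one_lt.ne' (Nat.dvd_one.1 h5)
  have h3 : ‖((q.den : ℤ) : ℂ_[p])‖ ≤ (p : ℝ)⁻¹ := by
    obtain ⟨k, hk⟩ := h
    rw [hk]
    push_cast
    rw [norm_mul]
    have h4 : ‖(p : ℂ_[p])‖ = (p : ℝ)⁻¹ := by
      have := norm_rat (p := p) (p : ℚ)
      push_cast at this
      rw [this, Padic.norm_p]
    rw [h4]
    have h5 : ‖(k : ℂ_[p])‖ ≤ 1 := Pool.Agent.Y226.nnat k
    have h6 : (0 : ℝ) ≤ (p : ℝ)⁻¹ := by positivity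
    nlinarith
  have hp0 : (0 : ℝ) < p := by exact_mod_cast hp.pos
  have h4 := congrArg norm h1
  rw [norm_mul, h2] at h4
  have h5 : 1 ≤ ‖(q : ℂ_[p])‖ * (p : ℝ)⁻¹ := by
    rw [← h4]
    gcongr
  rw [← div_eq_mul_inv, le_div_iff₀ hp0, one_mul] at h5
  exact h5

end place

/-- algebraic numbers are integral at almost all places -/
theorem integral_almost (K : Subfield ℂ) [Countable K] {z : K} (hz : IsAlgebraic ℚ (z : ℂ)) :
    ∃ D : ℕ, ∀ (p : ℕ) [Fact p.Prime], D < p → ∀ φ : K →+* ℂ_[p], ‖φ z‖ ≤ 1 := by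
  have hz' : IsAlgebraic ℤ (z : ℂ) := (IsFractionRing.isAlgebraic_iff ℤ ℚ ℂ).2 hz
  obtain ⟨a, ha0, hint⟩ := hz'.exists_integral_multiple
  refine ⟨a.natAbs, fun p hpf hp φ => ?_⟩
  obtain ⟨Φ, hΦ, -⟩ := s_emb p K φ Empty Empty.elim
    (algebraicIndependent_empty_type_iff.2 (RingHom.injective _))
  have h1 := norm_le_of_int Φ hint
  rw [zsmul_eq_mul, map_mul, map_intCast, norm_mul, norm_int_unit (fun h => ?_), one_mul, hΦ z] at h1
  · exact h1
  · have h2 : p ∣ a.natAbs := Int.natCast_dvd.1 h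
    have h3 := Nat.le_of_dvd (Int.natAbs_pos.2 ha0) h2
    omega

theorem countable_of_algebraic (K : Subfield ℂ) (hK : ∀ z ∈ K, IsAlgebraic ℚ z) : Countable K := by
  have h1 : (K : Set ℂ) ⊆ {z : ℂ | IsAlgebraic ℚ z} := fun z hz => hK z hz
  have h2 : ({z : ℂ | IsAlgebraic ℚ z}).Countable := Algebraic.countable ℚ ℂ
  exact (h2.mono h1).to_subtype

theorem exists_place (K : Subfield ℂ) (hK : ∀ z ∈ K, IsAlgebraic ℚ z) (p : ℕ) [Fact p.Prime] :
    Nonempty (K →+* ℂ_[p]) := by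
  have : Algebra.IsAlgebraic ℚ K := ⟨fun z => by
    have h1 := hK z z.2
    exact (isAlgebraic_algebraMap_iff (R := ℚ) (S := K) (A := ℂ) (algebraMap K ℂ).injective).1 h1⟩
  exact ⟨(IsAlgClosed.lift : K →ₐ[ℚ] ℂ_[p]).toRingHom⟩

/-- **Rational translates.** -/
theorem rat_thm {n m : ℕ} (K : Subfield ℂ) (hK : ∀ z ∈ K, IsAlgebraic ℚ z)
    (G : ∀ J : Finset (Fin n), MvPolynomial J K) (d : ∀ J : Finset (Fin n), J →₀ ℕ)
    (hd : ∀ J : Finset (Fin n), J.card = m + 1 → ∀ u ∈ (G J).support, ∀ j, u j ≤ d J j)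
    (htop : ∀ J : Finset (Fin n), J.card = m + 1 → (G J).coeff (d J) ≠ 0)
    (Y : Set (Fin n → ℂ))
    (hY : ∀ y ∈ Y, ∀ J : Finset (Fin n), J.card = m + 1 → aeval (fun j : J => y j) (G J) = 0)
    (Γ : Finset ℂ) (hΓ : ∀ γ ∈ Γ, γ ∈ K) :
    ∃ D : ℕ, ∀ p : ℕ, p.Prime → D < p → ∀ r : Fin n → ℚ, (∀ i, p ∣ (r i).den) →
      ∃ L : Fin n → Fin n → ℕ, ZPin K (Algebra.adjoin ℤ (Γ : Set ℂ)).toSubring m
        (shift (fun i => (r i : ℂ)) Y) (fun i j => {L i j}) := by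
  classical
  have := countable_of_algebraic K hK
  -- the finite set of numbers
  let W : Set K := (⋃ J : Finset (Fin n), (fun u => (G J).coeff u) '' ((G J).support : Set (J →₀ ℕ))) ∪
    ((⋃ J : Finset (Fin n), {((G J).coeff (d J))⁻¹}) ∪ (Subtype.val ⁻¹' (Γ : Set ℂ) : Set K))
  have hWf : W.Finite := by
    refine Set.Finite.union (Set.finite_iUnion fun _ => (Finset.finite_toSet _).image _)
      (Set.Finite.union (Set.finite_iUnion fun _ => Set.finite_singleton _) ?_)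
    exact Set.Finite.preimage (Subtype.val_injective.injOn) Γ.finite_toSet
  have hD : ∀ z : K, ∃ D : ℕ, ∀ (p : ℕ) [Fact p.Prime], D < p → ∀ φ : K →+* ℂ_[p], ‖φ z‖ ≤ 1 :=
    fun z => integral_almost K (hK z z.2)
  choose D hD using hD
  refine ⟨2 + ∑ z ∈ hWf.toFinset, D z, fun p hp hpD r hr => ?_⟩
  have hpf : Fact p.Prime := ⟨hp⟩
  obtain ⟨φ⟩ := exists_place K hK p
  have hW : ∀ z ∈ W, ‖φ z‖ ≤ 1 := by
    intro z hz
    refine hD z p ?_ φ
    have h1 : D z ≤ ∑ z ∈ hWf.toFinset, D z :=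
      Finset.single_le_sum (f := D) (fun _ _ => Nat.zero_le _) (hWf.mem_toFinset.2 hz)
    omega
  have hB : CoefBound m G d φ 1 := by
    refine ⟨le_rfl, fun J hJ u => ?_⟩
    have h1 : 1 ≤ ‖φ ((G J).coeff (d J))‖ := by
      have h2 : ‖φ ((G J).coeff (d J))⁻¹‖ ≤ 1 :=
        hW _ (Or.inr (Or.inl (Set.mem_iUnion.2 ⟨J, rfl⟩)))
      rw [map_inv₀, norm_inv] at h2
      have h3 : 0 < ‖φ ((G J).coeff (d J))‖ := norm_pos_iff.2 ((map_ne_zero φ).2 (htop J hJ))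
      exact (inv_le_one₀ h3).1 h2
    rw [one_mul]
    by_cases hu : (G J).coeff u = 0
    · rw [hu, map_zero, norm_zero]
      exact zero_le_one.trans h1
    · exact (hW _ (Or.inl (Set.mem_iUnion.2 ⟨J, u, mem_support_iff.2 hu, rfl⟩))).trans h1
  have hp3 : 3 ≤ p := by omega
  have hp3' : (3 : ℝ) ≤ p := by exact_mod_cast hp3
  set ρ : ℝ := (p : ℝ)⁻¹ with hρ
  have hp0 : (0 : ℝ) < p := by linarith
  have hρ2 : ρ < 1 / 2 := by
    rw [hρ, inv_lt_comm₀ hp0 (by norm_num)]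
    norm_num
    linarith
  have hρ1 : ρ < 1 := by linarith
  have hrn : ∀ i, (p : ℝ) ≤ ‖φ (r i : K)‖ := by
    intro i
    rw [map_ratCast]
    exact norm_den (hr i)
  have h1 := trans_thm K G d hd htop Y hY φ hB hρ1 (fun i => (r i : K)) (fun i => by
    have := hrn i
    rw [hρ, inv_mul_eq_div, le_div_iff₀ hp0, one_mul]
    exact this)
  have hsub : ∀ i j, (levels p ρ (φ (r i : K)) (φ (r j : K))).Subsingleton := by
    intro i j
    refine levels_unique hρ2 ?_ ?_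
    · have := hrn i
      linarith
    · have := hrn j
      linarith
  have hex : ∀ i j, ∃ N : ℕ, levels p ρ (φ (r i : K)) (φ (r j : K)) ⊆ {N} := by
    intro i j
    rcases (hsub i j).eq_empty_or_singleton with h | ⟨N, hN⟩
    · exact ⟨0, by rw [h]; exact Set.empty_subset _⟩
    · exact ⟨N, hN.le⟩
  choose L hL using hex
  refine ⟨L, ?_⟩
  have hΓO : (Algebra.adjoin ℤ (Γ : Set ℂ)).toSubring ≤ intRing K φ := by
    intro z hz
    have hz' : z ∈ Algebra.adjoin ℤ (Γ : Set ℂ) := hz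
    induction hz' using Algebra.adjoin_induction with
    | mem t ht =>
      have ht' : t ∈ K := hΓ t ht
      exact ⟨ht', hW ⟨t, ht'⟩ (Or.inr (Or.inr ht))⟩
    | algebraMap t => exact intCast_mem _ t
    | add s t _ _ hs ht => exact Subring.add_mem _ (hs ‹_›) (ht ‹_›)
    | mul s t _ _ hs ht => exact Subring.mul_mem _ (hs ‹_›) (ht ‹_›)
  have h2 := h1.mono hΓO hL
  have h3 : (fun i => (((r i : ℚ) : K) : ℂ)) = fun i => ((r i : ℚ) : ℂ) := by
    funext i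
    push_cast
    rfl
  rw [h3] at h2
  exact h2

/-- **Counting.** -/
theorem count_thm {n m : ℕ} (K : Subfield ℂ) (hK : ∀ z ∈ K, IsAlgebraic ℚ z)
    (G : ∀ J : Finset (Fin n), MvPolynomial J K) (d : ∀ J : Finset (Fin n), J →₀ ℕ)
    (hd : ∀ J : Finset (Fin n), J.card = m + 1 → ∀ u ∈ (G J).support, ∀ j, u j ≤ d J j)
    (htop : ∀ J : Finset (Fin n), J.card = m + 1 → (G J).coeff (d J) ≠ 0)
    (Y : Set (Fin n → ℂ))
    (hY : ∀ y ∈ Y, ∀ J : Finset (Fin n), J.card = m + 1 → aeval (fun j : J => y j) (G J) = 0)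
    (Γ : Finset ℂ) (hΓ : ∀ γ ∈ Γ, γ ∈ K) :
    ∃ C a : ℕ, ∀ H : ℕ, 2 ≤ H →
      ({v : ℤ × (Fin n → ℤ) | |v.1| ≤ (H : ℤ) ∧ (∀ i, |v.2 i| ≤ (H : ℤ)) ∧ (v.1 = 0 ∨
        ¬ ∃ L : Fin n → Fin n → ℕ, ZPin K (Algebra.adjoin ℤ (Γ : Set ℂ)).toSubring m
          (shift (fun i => (v.2 i : ℂ) / (v.1 : ℂ)) Y) (fun i j => {L i j}))}.ncard : ℝ) ≤
        C * (H : ℝ) ^ n * Real.log H ^ a := by
  classical
  obtain ⟨D, hD⟩ := rat_thm K hK G d hd htop Y hY Γ hΓ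
  obtain ⟨C, a, hC⟩ := s_count n D
  refine ⟨C, a, fun H hH => le_trans ?_ (hC H hH)⟩
  have hfin : {v : ℤ × (Fin n → ℤ) | |v.1| ≤ (H : ℤ) ∧ (∀ i, |v.2 i| ≤ (H : ℤ)) ∧
      (v.1 = 0 ∨ Bad D v.1 v.2)}.Finite := by
    refine ((Set.finite_Icc (-(H : ℤ)) H).prod (Set.Finite.pi fun _ : Fin n =>
      Set.finite_Icc (-(H : ℤ)) H)).subset ?_
    rintro v ⟨h1, h2, -⟩
    exact ⟨Set.mem_Icc.2 (abs_le.1 h1), fun i _ => Set.mem_Icc.2 (abs_le.1 (h2 i))⟩
  refine Nat.cast_le.2 (Set.ncard_le_ncard ?_ hfin)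
  rintro ⟨t, c⟩ ⟨h1, h2, h3⟩
  refine ⟨h1, h2, ?_⟩
  by_cases h0 : t = 0
  · exact Or.inl h0
  right
  by_contra hbad
  rcases h3 with h3 | h3
  · exact h0 h3
  apply h3
  unfold Bad at hbad
  push Not at hbad
  obtain ⟨p, hp, hpD, hpt, hpc⟩ := hbad
  obtain ⟨L, hL⟩ := hD p hp hpD (fun i => (c i : ℚ) / (t : ℚ)) (by
    intro i
    obtain ⟨k, hk1, hk2⟩ := hpc i
    by_contra hden
    apply hk2
    set q : ℚ := (c i : ℚ) / (t : ℚ) with hq
    have ht0 : (t : ℚ) ≠ 0 := by exact_mod_cast h0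
    have e1 : c i * (q.den : ℤ) = q.num * t := by
      have e2 : (q.num : ℚ) = q * q.den := (Rat.mul_den_eq_num q).symm
      have e3 : (c i : ℚ) = q * t := by
        rw [hq]
        field_simp
      have e4 : (c i : ℚ) * (q.den : ℚ) = (q.num : ℚ) * t := by
        rw [e2, e3]
        ring
      exact_mod_cast e4
    have e2 : (p : ℤ) ^ k ∣ c i * (q.den : ℤ) := by
      rw [e1]
      exact Dvd.dvd.mul_left hk1 _
    have e3 : IsCoprime ((p : ℤ) ^ k) (q.den : ℤ) := by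
      refine IsCoprime.pow_left ?_
      rw [Nat.isCoprime_iff_coprime]
      exact (Nat.Prime.coprime_iff_not_dvd hp).2 hden
    exact e3.dvd_of_dvd_mul_right e2)
  refine ⟨L, ?_⟩
  have h4 : (fun i => (((c i : ℚ) / (t : ℚ) : ℚ) : ℂ)) = fun i => (c i : ℂ) / (t : ℂ) := by
    funext i
    push_cast
    rfl
  rw [h4] at hL
  exact hL

end Pool.Agent.NH30.KS
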