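import Mathlib

/-!
# Zilber-Pink at one place (helper30): task statements
-/

set_option autoImplicit false

namespace Pool.Agent.NH30.KS

/-- Task KS-1. An embedding of a countable field `K ⊂ ℂ` into the `p`-adic complex numbers extends to
`ℂ`, such that given algebraically independent numbers are mapped into the unit ball. -/
def S_EMB : Prop := ∀ (p : ℕ) [Fact p.Prime] (K : Subfield ℂ) [Countable K] (φ : K →+* ℂ_[p])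
  (τ : Type) (x : τ → ℂ), AlgebraicIndependent K x →
  ∃ Φ : ℂ →+* ℂ_[p], (∀ z : K, Φ z = φ z) ∧ ∀ j, ‖Φ (x j)‖ ≤ 1

/-- The levels `A B g ^ 2` for two centers `c`, `c'`: `c ^ A` is near to `ζ * c' ^ B` for a root of
unity `ζ` of the exact order `g`. -/
def levels (p : ℕ) [Fact p.Prime] (ρ : ℝ) (c c' : ℂ_[p]) : Set ℕ :=
  {N | ∃ (A B g : ℕ) (ζ : ℂ_[p]), 0 < A ∧ 0 < B ∧ A.Coprime B ∧ 0 < g ∧ IsPrimitiveRoot ζ g ∧
    ‖c ^ A - ζ * c' ^ B‖ ≤ ρ * ‖c‖ ^ A ∧ N = A * B * g ^ 2}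

/-- Task KS-2. There are only finitely many levels. -/
def S_FIN : Prop := ∀ (p : ℕ) [Fact p.Prime] (ρ : ℝ) (c c' : ℂ_[p]), ρ < 1 → 1 < ‖c‖ →
  1 < ‖c'‖ → (levels p ρ c c').Finite

/-- Every prime power `p ^ k` exactly dividing `t`, `p > D`, divides one of the `c i`. -/
def Bad {n : ℕ} (D : ℕ) (t : ℤ) (c : Fin n → ℤ) : Prop :=
  ∀ p : ℕ, p.Prime → D < p → (p : ℤ) ∣ t → ∃ i, ∀ k : ℕ, (p : ℤ) ^ k ∣ t → (p : ℤ) ^ k ∣ c i

/-- Task KS-3. There are few bad integral vectors. -/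
def S_COUNT : Prop := ∀ n D : ℕ, ∃ C a : ℕ, ∀ H : ℕ, 2 ≤ H →
  ({v : ℤ × (Fin n → ℤ) | |v.1| ≤ (H : ℤ) ∧ (∀ i, |v.2 i| ≤ (H : ℤ)) ∧
    (v.1 = 0 ∨ Bad D v.1 v.2)}.ncard : ℝ) ≤ C * (H : ℝ) ^ n * Real.log H ^ a

end Pool.Agent.NH30.KS
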