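import Pool.Agent.NH30.KS.Main
import Pool.Agent.NH30.KS.Emb
import Pool.Agent.NH30.KS.FinL

/-!
# Zilber-Pink at one place (helper30): star-shaped sets and translates
-/

set_option autoImplicit false

open Function UpperHalfPlane H294ZP MvPolynomial
open Pool.Agent.W282.ZP
open Pool.Agent.NH30.KT (Rel)

namespace Pool.Agent.NH30.KS

theorem levelSet_finite {p : ℕ} [Fact p.Prime] {n : ℕ} {R : Fin n → Finset ℂ_[p]} {ρ : ℝ}
    (hρ : ρ < 1) (hR : ∀ i, ∀ c ∈ R i, 1 ≤ ρ * ‖c‖) (i j : Fin n) :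
    (levelSet R ρ i j).Finite := by
  have h1 : levelSet R ρ i j = ⋃ c ∈ R i, ⋃ c' ∈ R j, levels p ρ c c' := by
    ext N
    simp only [levelSet, Set.mem_iUnion, exists_prop]
    rfl
  have hone : ∀ i, ∀ c ∈ R i, 1 < ‖c‖ := by
    intro i c hc
    have h2 := hR i c hc
    have hρ0 : 0 < ρ := by
      by_contra hcon
      push Not at hcon
      have : ρ * ‖c‖ ≤ 0 := mul_nonpos_of_nonpos_of_nonneg hcon (norm_nonneg _)
      linarith
    nlinarith [norm_nonneg c]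
  rw [h1]
  refine Set.Finite.biUnion (R i).finite_toSet fun c hc => Set.Finite.biUnion (R j).finite_toSet
    fun c' hc' => ?_
  exact s_fin p ρ c c' hρ (hone i c hc) (hone j c' hc')

/-- There is at most one level if `ρ < 1 / 2`. -/
theorem levels_unique {p : ℕ} [Fact p.Prime] {ρ : ℝ} (hρ : ρ < 1 / 2) {c c' : ℂ_[p]}
    (hc : 1 < ‖c‖) (hc' : 1 < ‖c'‖) : (levels p ρ c c').Subsingleton := by
  have hρ1 : ρ < 1 := by linarith
  have key : ∀ (A B g : ℕ) (ζ : ℂ_[p]), 0 < g → IsPrimitiveRoot ζ g →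
      ‖c ^ A - ζ * c' ^ B‖ ≤ ρ * ‖c‖ ^ A → ‖c‖ ^ A = ‖c'‖ ^ B ∧ ‖ζ‖ = 1 := by
    intro A B g ζ hg hζ h
    have hζ1 : ‖ζ‖ = 1 := FinL.root_norm hζ.pow_eq_one hg.ne'
    have hcA : 0 < ‖c‖ ^ A := by positivity
    have hlt : ‖c ^ A - ζ * c' ^ B‖ < ‖c ^ A‖ := by
      rw [norm_pow]
      calc _ ≤ ρ * ‖c‖ ^ A := h
        _ < 1 * ‖c‖ ^ A := mul_lt_mul_of_pos_right hρ1 hcA
        _ = _ := one_mul _
    have heq : ‖ζ * c' ^ B‖ = ‖c ^ A‖ := by
      refine Pool.Agent.Y226.neq_of_sub_lt ?_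
      rwa [norm_sub_rev]
    refine ⟨?_, hζ1⟩
    rw [norm_mul, hζ1, one_mul, norm_pow, norm_pow] at heq
    exact heq.symm
  rintro N ⟨A, B, g, ζ, hA, hB, hco, hg, hζ, h, rfl⟩ N' ⟨A', B', g', ζ', hA', hB', hco', hg', hζ',
    h', rfl⟩
  obtain ⟨heq, hn⟩ := key A B g ζ hg hζ h
  obtain ⟨heq', hn'⟩ := key A' B' g' ζ' hg' hζ' h'
  have hlc : 0 < Real.log ‖c‖ := Real.log_pos hc
  have hlc' : 0 < Real.log ‖c'‖ := Real.log_pos hc'
  have l1 : (A : ℝ) * Real.log ‖c‖ = B * Real.log ‖c'‖ := by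
    have := congrArg Real.log heq
    rwa [Real.log_pow, Real.log_pow] at this
  have l0 : (A' : ℝ) * Real.log ‖c‖ = B' * Real.log ‖c'‖ := by
    have := congrArg Real.log heq'
    rwa [Real.log_pow, Real.log_pow] at this
  have hcross : (A : ℝ) * B' = A' * B := by
    have e1 : ((A : ℝ) * B') * (Real.log ‖c‖ * Real.log ‖c'‖) =
        (A' * B) * (Real.log ‖c‖ * Real.log ‖c'‖) := by
      calc ((A : ℝ) * B') * (Real.log ‖c‖ * Real.log ‖c'‖) =
            (A * Real.log ‖c‖) * (B' * Real.log ‖c'‖) := by ring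
        _ = (B * Real.log ‖c'‖) * (A' * Real.log ‖c‖) := by rw [l1, l0]
        _ = _ := by ring
    exact mul_right_cancel₀ (mul_pos hlc hlc').ne' e1
  have hcrossN : A * B' = A' * B := by exact_mod_cast hcross
  have hAA : A = A' := by
    apply Nat.dvd_antisymm
    · have : A ∣ A' * B := ⟨B', hcrossN.symm⟩
      exact hco.dvd_of_dvd_mul_right this
    · have : A' ∣ A * B' := ⟨B, hcrossN⟩
      exact hco'.dvd_of_dvd_mul_right this
  have hBB : B = B' := by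
    subst hAA
    exact (Nat.eq_of_mul_eq_mul_left hA hcrossN).symm
  subst hAA hBB
  -- the quotient of the roots of unity
  have hcA : 0 < ‖c‖ ^ A := by positivity
  have hρ0 : 0 ≤ ρ := by
    by_contra hcon
    push Not at hcon
    have h1 : ρ * ‖c‖ ^ A < 0 := mul_neg_of_neg_of_pos hcon hcA
    have h2 := norm_nonneg (c ^ A - ζ * c' ^ B)
    linarith
  have hc'B : ‖c' ^ B‖ = ‖c‖ ^ A := by rw [norm_pow, heq]
  have hdiff : ‖ζ - ζ'‖ ≤ ρ := by
    have e : (ζ - ζ') * c' ^ B = (c ^ A - ζ' * c' ^ B) - (c ^ A - ζ * c' ^ B) := by ring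
    have h1 : ‖(ζ - ζ') * c' ^ B‖ ≤ ρ * ‖c‖ ^ A := by
      rw [e]
      exact Pool.Agent.Y226.nsub_le h' h
    rw [norm_mul, hc'B] at h1
    exact le_of_mul_le_mul_right h1 hcA
  have hζ0 : ζ ≠ 0 := norm_pos_iff.1 (by rw [hn]; exact one_pos)
  have hη1 : ‖1 - ζ' / ζ‖ ≤ ρ := by
    have e : 1 - ζ' / ζ = (ζ - ζ') / ζ := by
      field_simp
    rw [e, norm_div, hn, div_one]
    exact hdiff
  have hηfin : (ζ' / ζ) ^ (g * g') = 1 := by
    rw [div_pow, mul_comm g g', pow_mul, hζ'.pow_eq_one, one_pow, mul_comm g' g, pow_mul,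
      hζ.pow_eq_one, one_pow, div_one]
  have hord : 0 < orderOf (ζ' / ζ) := by
    rw [orderOf_pos_iff, isOfFinOrder_iff_pow_eq_one]
    exact ⟨g * g', Nat.mul_pos hg hg', hηfin⟩
  obtain ⟨k, hk⟩ : ∃ k, orderOf (ζ' / ζ) = k + 1 := ⟨orderOf (ζ' / ζ) - 1, by omega⟩
  have hb := FinL.order_bound hρ0 hρ1 hη1 (n := k) (by
    rw [← hk]
    exact IsPrimitiveRoot.orderOf _)
  have hk0 : k = 0 := by
    by_contra hne
    have h1 : ∀ k : ℕ, 1 ≤ k → ((k : ℝ) + 1) * ρ ^ k < 1 := by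
      intro k hk
      induction k, hk using Nat.le_induction with
      | base => push_cast; linarith
      | succ k hk ih =>
        have h2 : ρ ^ k ≥ 0 := pow_nonneg hρ0 k
        rw [pow_succ]
        push_cast
        have h3 : (1 : ℝ) ≤ k := by exact_mod_cast hk
        have h4 : ((k : ℝ) + 1 + 1) * (ρ ^ k * ρ) ≤ ((k : ℝ) + 1) * ρ ^ k := by
          have h5 : ((k : ℝ) + 1 + 1) * ρ ≤ (k : ℝ) + 1 := by nlinarith
          calc ((k : ℝ) + 1 + 1) * (ρ ^ k * ρ) = (((k : ℝ) + 1 + 1) * ρ) * ρ ^ k := by ring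
            _ ≤ ((k : ℝ) + 1) * ρ ^ k := by gcongr
        exact h4.trans_lt ih
    exact absurd hb (not_le.2 (h1 k (by omega)))
  rw [hk0, zero_add, orderOf_eq_one_iff] at hk
  have hζζ : ζ' = ζ := by
    have := congrArg (fun z => z * ζ) hk
    simp only [one_mul] at this
    rwa [div_mul_cancel₀ _ hζ0] at this
  rw [hζζ] at hζ'
  rw [hζ.unique hζ']

/-- **The local theorem**, in terms of polynomials. -/
theorem star_thm {p : ℕ} [hpf : Fact p.Prime] {n m : ℕ} {R : Fin n → Finset ℂ_[p]}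
    {ρ : ℝ} (hρ : ρ < 1) (hR : ∀ i, ∀ c ∈ R i, 1 ≤ ρ * ‖c‖) (K : Subfield ℂ) [Countable K]
    (φ : K →+* ℂ_[p]) (P : ∀ J : Finset (Fin n), MvPolynomial J K)
    (hP : ∀ J : Finset (Fin n), J.card = m + 1 → ∀ ξ : J → ℂ_[p], eval₂ φ ξ (P J) = 0 →
      ∃ j : J, Near (R j) ρ (ξ j)) (X : Set (Fin n → ℂ))
    (hX : ∀ x ∈ X, ∀ J : Finset (Fin n), J.card = m + 1 → aeval (fun j : J => x j) (P J) = 0) :
    ZPin K (intRing K φ) m X (levelSet R ρ) := by
  refine local_thm s_emb hρ hR K φ fun x hx Φ hΦ J hJ => ?_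
  have h1 := congrArg Φ (hX x hx J hJ)
  rw [map_zero, aeval_def, hom_eval₂] at h1
  have h2 : Φ.comp (algebraMap K ℂ) = φ := by
    ext z
    exact hΦ z
  rw [h2] at h1
  obtain ⟨j, hj⟩ := hP J hJ _ h1
  exact ⟨j, j.2, hj⟩

/-- a zero of a polynomial with a top coefficient has a bounded coordinate -/
theorem top_bound {p : ℕ} [hpf : Fact p.Prime] {σ : Type} [Fintype σ] [DecidableEq σ]
    (G : MvPolynomial σ ℂ_[p]) (d : σ →₀ ℕ) (hd : ∀ u ∈ G.support, ∀ j, u j ≤ d j)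
    (hc : G.coeff d ≠ 0) {B : ℝ} (hB : 1 ≤ B) (hGB : ∀ u, ‖G.coeff u‖ ≤ B * ‖G.coeff d‖)
    (z : σ → ℂ_[p]) (hz : eval z G = 0) : ∃ j, ‖z j‖ ≤ B := by
  classical
  by_contra hcon
  push Not at hcon
  have hmem : d ∈ G.support := mem_support_iff.2 hc
  rw [eval_eq', ← Finset.add_sum_erase _ _ hmem] at hz
  have hz1 : ∀ j, 1 < ‖z j‖ := fun j => hB.trans_lt (hcon j)
  have hprod : 0 < ∏ j, ‖z j‖ ^ d j := Finset.prod_pos fun j _ => by
    have := hz1 j
    positivity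
  have hdn : 0 < ‖G.coeff d‖ := norm_pos_iff.2 hc
  have hterm : ∀ u ∈ G.support.erase d, ‖G.coeff u * ∏ j, z j ^ u j‖ <
      ‖G.coeff d‖ * ∏ j, ‖z j‖ ^ d j := by
    intro u hu
    obtain ⟨hne, hus⟩ := Finset.mem_erase.1 hu
    obtain ⟨j0, hj0⟩ : ∃ j, u j ≠ d j := by
      by_contra h
      push Not at h
      exact hne (Finsupp.ext h)
    have hlt : u j0 < d j0 := lt_of_le_of_ne (hd u hus j0) hj0
    have h1 : B * ∏ j, ‖z j‖ ^ u j < ∏ j, ‖z j‖ ^ d j := by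
      rw [← Finset.mul_prod_erase Finset.univ _ (Finset.mem_univ j0),
        ← Finset.mul_prod_erase Finset.univ (fun j => ‖z j‖ ^ d j) (Finset.mem_univ j0)]
      have h2 : ∏ j ∈ Finset.univ.erase j0, ‖z j‖ ^ u j ≤
          ∏ j ∈ Finset.univ.erase j0, ‖z j‖ ^ d j :=
        Finset.prod_le_prod (fun j _ => by positivity) fun j _ =>
          pow_le_pow_right₀ (hz1 j).le (hd u hus j)
      have h3 : 0 < ∏ j ∈ Finset.univ.erase j0, ‖z j‖ ^ d j := Finset.prod_pos fun j _ => by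
        have := hz1 j
        positivity
      have h4 : B * ‖z j0‖ ^ u j0 < ‖z j0‖ ^ d j0 := by
        have h5 : ‖z j0‖ ^ (u j0 + 1) ≤ ‖z j0‖ ^ d j0 := pow_le_pow_right₀ (hz1 j0).le hlt
        have h6 : 0 < ‖z j0‖ ^ u j0 := by
          have := hz1 j0
          positivity
        calc B * ‖z j0‖ ^ u j0 < ‖z j0‖ * ‖z j0‖ ^ u j0 :=
              mul_lt_mul_of_pos_right (hcon j0) h6
          _ = ‖z j0‖ ^ (u j0 + 1) := by rw [pow_succ]; ring
          _ ≤ _ := h5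
      calc B * (‖z j0‖ ^ u j0 * ∏ j ∈ Finset.univ.erase j0, ‖z j‖ ^ u j) =
            (B * ‖z j0‖ ^ u j0) * ∏ j ∈ Finset.univ.erase j0, ‖z j‖ ^ u j := by ring
        _ ≤ (B * ‖z j0‖ ^ u j0) * ∏ j ∈ Finset.univ.erase j0, ‖z j‖ ^ d j := by
          have := norm_nonneg (z j0)
          gcongr
        _ < ‖z j0‖ ^ d j0 * ∏ j ∈ Finset.univ.erase j0, ‖z j‖ ^ d j :=
          mul_lt_mul_of_pos_right h4 h3
    rw [norm_mul, norm_prod]
    simp only [norm_pow]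
    have h7 : 0 ≤ ∏ j, ‖z j‖ ^ u j := Finset.prod_nonneg fun j _ => by positivity
    calc ‖G.coeff u‖ * ∏ j, ‖z j‖ ^ u j ≤ (B * ‖G.coeff d‖) * ∏ j, ‖z j‖ ^ u j := by
          gcongr
          exact hGB u
      _ = ‖G.coeff d‖ * (B * ∏ j, ‖z j‖ ^ u j) := by ring
      _ < ‖G.coeff d‖ * ∏ j, ‖z j‖ ^ d j := mul_lt_mul_of_pos_left h1 hdn
  have hpos : 0 < ‖G.coeff d‖ * ∏ j, ‖z j‖ ^ d j := mul_pos hdn hprod
  have hsum : ‖∑ u ∈ G.support.erase d, G.coeff u * ∏ j, z j ^ u j‖ <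
      ‖G.coeff d‖ * ∏ j, ‖z j‖ ^ d j := by
    rcases (G.support.erase d).eq_empty_or_nonempty with h | h
    · rw [h, Finset.sum_empty, norm_zero]
      exact hpos
    · obtain ⟨u, hu, hle⟩ := IsUltrametricDist.exists_norm_finsetSum_le_of_nonempty h
        (fun u => G.coeff u * ∏ j, z j ^ u j)
      exact hle.trans_lt (hterm u hu)
  have heq : ‖G.coeff d * ∏ j, z j ^ d j‖ = ‖∑ u ∈ G.support.erase d, G.coeff u * ∏ j, z j ^ u j‖ := by
    rw [eq_neg_of_add_eq_zero_left hz, norm_neg]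
  rw [norm_mul, norm_prod] at heq
  simp only [norm_pow] at heq
  rw [← heq] at hsum
  exact lt_irrefl _ hsum

/-- The translate `Y + r`. -/
def shift {n : ℕ} (r : Fin n → ℂ) (Y : Set (Fin n → ℂ)) : Set (Fin n → ℂ) :=
  {x | (fun i => x i - r i) ∈ Y}

/-- `B` bounds the quotients of the coefficients of the `G J` and their top coefficients at the place
`φ`. -/
def CoefBound {p : ℕ} [Fact p.Prime] {K : Subfield ℂ} {n : ℕ} (m : ℕ)
    (G : ∀ J : Finset (Fin n), MvPolynomial J K) (d : ∀ J : Finset (Fin n), J →₀ ℕ)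
    (φ : K →+* ℂ_[p]) (B : ℝ) : Prop :=
  1 ≤ B ∧ ∀ J : Finset (Fin n), J.card = m + 1 → ∀ u,
    ‖φ ((G J).coeff u)‖ ≤ B * ‖φ ((G J).coeff (d J))‖

theorem exists_coefBound {p : ℕ} [Fact p.Prime] {K : Subfield ℂ} {n m : ℕ}
    (G : ∀ J : Finset (Fin n), MvPolynomial J K) (d : ∀ J : Finset (Fin n), J →₀ ℕ)
    (htop : ∀ J : Finset (Fin n), J.card = m + 1 → (G J).coeff (d J) ≠ 0) (φ : K →+* ℂ_[p]) :
    ∃ B, CoefBound m G d φ B := by
  classical
  refine ⟨1 + ∑ J : Finset (Fin n), ∑ u ∈ (G J).support,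
    ‖φ ((G J).coeff u)‖ / ‖φ ((G J).coeff (d J))‖, ?_, ?_⟩
  · have : 0 ≤ ∑ J : Finset (Fin n), ∑ u ∈ (G J).support,
        ‖φ ((G J).coeff u)‖ / ‖φ ((G J).coeff (d J))‖ :=
      Finset.sum_nonneg fun J _ => Finset.sum_nonneg fun u _ => by positivity
    linarith
  · intro J hJ u
    have h0 : 0 < ‖φ ((G J).coeff (d J))‖ := norm_pos_iff.2 ((map_ne_zero φ).2 (htop J hJ))
    by_cases hu : (G J).coeff u = 0
    · rw [hu, map_zero, norm_zero]
      have : 0 ≤ ∑ J : Finset (Fin n), ∑ u ∈ (G J).support,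
          ‖φ ((G J).coeff u)‖ / ‖φ ((G J).coeff (d J))‖ :=
        Finset.sum_nonneg fun J _ => Finset.sum_nonneg fun u _ => by positivity
      positivity
    · have h1 : ‖φ ((G J).coeff u)‖ / ‖φ ((G J).coeff (d J))‖ ≤
          ∑ u ∈ (G J).support, ‖φ ((G J).coeff u)‖ / ‖φ ((G J).coeff (d J))‖ :=
        Finset.single_le_sum (f := fun u => ‖φ ((G J).coeff u)‖ / ‖φ ((G J).coeff (d J))‖)
          (fun _ _ => by positivity) (mem_support_iff.2 hu)
      have h2 : ∑ u ∈ (G J).support, ‖φ ((G J).coeff u)‖ / ‖φ ((G J).coeff (d J))‖ ≤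
          ∑ J : Finset (Fin n), ∑ u ∈ (G J).support,
            ‖φ ((G J).coeff u)‖ / ‖φ ((G J).coeff (d J))‖ :=
        Finset.single_le_sum (f := fun J => ∑ u ∈ (G J).support,
            ‖φ ((G J).coeff u)‖ / ‖φ ((G J).coeff (d J))‖)
          (fun _ _ => Finset.sum_nonneg fun u _ => by positivity) (Finset.mem_univ J)
      rw [div_le_iff₀ h0] at h1
      refine h1.trans ?_
      gcongr
      linarith

/-- **Translates.** -/
theorem trans_thm {p : ℕ} [hpf : Fact p.Prime] {n m : ℕ} (K : Subfield ℂ) [Countable K]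
    (G : ∀ J : Finset (Fin n), MvPolynomial J K) (d : ∀ J : Finset (Fin n), J →₀ ℕ)
    (hd : ∀ J : Finset (Fin n), J.card = m + 1 → ∀ u ∈ (G J).support, ∀ j, u j ≤ d J j)
    (htop : ∀ J : Finset (Fin n), J.card = m + 1 → (G J).coeff (d J) ≠ 0)
    (Y : Set (Fin n → ℂ))
    (hY : ∀ y ∈ Y, ∀ J : Finset (Fin n), J.card = m + 1 → aeval (fun j : J => y j) (G J) = 0)
    (φ : K →+* ℂ_[p]) {B : ℝ} (hB : CoefBound m G d φ B) {ρ : ℝ} (hρ : ρ < 1) (r : Fin n → K)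
    (hr : ∀ i, B ≤ ρ * ‖φ (r i)‖) :
    ZPin K (intRing K φ) m (shift (fun i => (r i : ℂ)) Y) (fun i j => levels p ρ (φ (r i)) (φ (r j))) := by
  classical
  have h1 : ∀ i : Fin n, ∀ c ∈ ({φ (r i)} : Finset ℂ_[p]), 1 ≤ ρ * ‖c‖ := by
    intro i c hc
    rw [Finset.mem_singleton] at hc
    rw [hc]
    exact hB.1.trans (hr i)
  have h2 := local_thm s_emb (R := fun i => {φ (r i)}) hρ h1 K φ (m := m)
    (X := shift (fun i => (r i : ℂ)) Y) (by
      intro x hx Φ hΦ J hJ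
      have h3 := congrArg Φ (hY _ hx J hJ)
      rw [map_zero, aeval_def, hom_eval₂] at h3
      have h4 : Φ.comp (algebraMap K ℂ) = φ := by
        ext z
        exact hΦ z
      rw [h4, ← eval_map] at h3
      obtain ⟨j, hj⟩ := top_bound (MvPolynomial.map φ (G J)) (d J) (fun u hu j => by
          refine hd J hJ u ?_ j
          rw [mem_support_iff] at hu ⊢
          intro h0
          rw [coeff_map, h0, map_zero] at hu
          exact hu rfl) (by
          rw [coeff_map]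
          exact (map_ne_zero φ).2 (htop J hJ)) hB.1 (fun u => by
          rw [coeff_map, coeff_map]
          exact hB.2 J hJ u) _ h3
      refine ⟨j, j.2, φ (r j), Finset.mem_singleton_self _, ?_⟩
      have h5 : Φ (x j) - φ (r j) = (Φ ∘ fun j : J => (x j - (r j : ℂ))) j := by
        rw [comp_apply, map_sub, hΦ (r j)]
      rw [h5]
      exact hj.trans (hr j))
  intro s Z
  refine ⟨fun A hA hcl hprime hdim => ?_, fun x hx S hS hlt => ?_⟩
  · obtain ⟨i, j, hij, N, hN, hx⟩ := (h2 s Z).1 A hA hcl hprime hdim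
    obtain ⟨c, hc, c', hc', hN⟩ := hN
    rw [Finset.mem_singleton] at hc hc'
    rw [hc, hc'] at hN
    exact ⟨i, j, hij, N, hN, hx⟩
  · obtain ⟨i, j, hij, N, hN, hx⟩ := (h2 s Z).2 x hx S hS hlt
    obtain ⟨c, hc, c', hc', hN⟩ := hN
    rw [Finset.mem_singleton] at hc hc'
    rw [hc, hc'] at hN
    exact ⟨i, j, hij, N, hN, hx⟩

end Pool.Agent.NH30.KS
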